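import Mathlib

/-!
The entropy of a finite set modulo a subgroup is a submodular function of the subgroup.
-/

set_option autoImplicit false

open Finset

namespace Pool.Agent.V5helper53.EQ

variable {Γ : Type*} [AddCommGroup Γ]

open Classical in
/-- the number of elements of `A` in the coset `a + H` -/
noncomputable def cell (A : Finset Γ) (H : AddSubgroup Γ) (a : Γ) : ℕ :=
  (A.filter fun b => a - b ∈ H).card

/-- the Shannon entropy of the coset modulo `H` of a uniform random element of `A` -/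
noncomputable def ent (A : Finset Γ) (H : AddSubgroup Γ) : ℝ :=
  Real.log A.card - (∑ a ∈ A, Real.log (cell A H a)) / A.card

theorem cell_pos {A : Finset Γ} (H : AddSubgroup Γ) {a : Γ} (ha : a ∈ A) : 0 < cell A H a := by
  classical
  unfold cell
  refine Finset.card_pos.2 ⟨a, Finset.mem_filter.2 ⟨ha, ?_⟩⟩
  rw [sub_self]; exact H.zero_mem

theorem cell_le {A : Finset Γ} (H : AddSubgroup Γ) (a : Γ) : cell A H a ≤ A.card := by
  classical
  unfold cell
  exact Finset.card_le_card (Finset.filter_subset _ _)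

theorem cell_mono {A : Finset Γ} {H H' : AddSubgroup Γ} (h : H ≤ H') (a : Γ) :
    cell A H a ≤ cell A H' a := by
  classical
  unfold cell
  exact Finset.card_le_card fun b hb => by
    rw [Finset.mem_filter] at hb ⊢
    exact ⟨hb.1, h hb.2⟩

theorem cell_congr {A : Finset Γ} {H : AddSubgroup Γ} {a b : Γ} (h : a - b ∈ H) :
    cell A H a = cell A H b := by
  classical
  unfold cell
  congr 1
  ext c
  rw [Finset.mem_filter, Finset.mem_filter]
  refine and_congr_right fun _ => ⟨fun h1 => ?_, fun h1 => ?_⟩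
  · have : b - c = (a - c) - (a - b) := by abel
    rw [this]; exact H.sub_mem h1 h
  · have : a - c = (b - c) + (a - b) := by abel
    rw [this]; exact H.add_mem h1 h

theorem ent_nonneg {A : Finset Γ} (hA : A.Nonempty) (H : AddSubgroup Γ) : 0 ≤ ent A H := by
  unfold ent
  have hc : (0 : ℝ) < A.card := by exact_mod_cast hA.card_pos
  rw [sub_nonneg, div_le_iff₀ hc]
  calc ∑ a ∈ A, Real.log (cell A H a) ≤ ∑ _a ∈ A, Real.log A.card := by
        refine Finset.sum_le_sum fun a ha => Real.log_le_log ?_ ?_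
        · exact_mod_cast cell_pos H ha
        · exact_mod_cast cell_le H a
    _ = Real.log A.card * A.card := by
        rw [Finset.sum_const, nsmul_eq_mul, mul_comm]

theorem ent_anti {A : Finset Γ} {H H' : AddSubgroup Γ} (h : H ≤ H') : ent A H' ≤ ent A H := by
  unfold ent
  refine sub_le_sub_left (div_le_div_of_nonneg_right (Finset.sum_le_sum fun a ha => ?_)
    (Nat.cast_nonneg _)) _
  exact Real.log_le_log (by exact_mod_cast cell_pos H ha) (by exact_mod_cast cell_mono h a)

/-- the combinatorial core: the number of pairs in a rectangle -/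
theorem rect {A : Finset Γ} (H₁ H₂ : AddSubgroup Γ) :
    ∑ a ∈ A, (cell A H₁ a : ℝ) * cell A H₂ a / (cell A (H₁ ⊓ H₂) a * cell A (H₁ ⊔ H₂) a) ≤
      A.card := by
  classical
  -- `r(a) c(a)` as a double sum
  have e1 : ∀ a ∈ A, (cell A H₁ a : ℝ) * cell A H₂ a /
      (cell A (H₁ ⊓ H₂) a * cell A (H₁ ⊔ H₂) a) =
      ∑ b ∈ A, ∑ c ∈ A, if a - b ∈ H₁ ∧ a - c ∈ H₂ then
        (1 : ℝ) / (cell A (H₁ ⊓ H₂) a * cell A (H₁ ⊔ H₂) a) else 0 := by
    intro a _
    have h1 : (cell A H₁ a : ℝ) = ∑ b ∈ A, if a - b ∈ H₁ then (1 : ℝ) else 0 := by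
      unfold cell
      rw [Finset.card_filter]
      push_cast
      rfl
    have h2 : (cell A H₂ a : ℝ) = ∑ c ∈ A, if a - c ∈ H₂ then (1 : ℝ) else 0 := by
      unfold cell
      rw [Finset.card_filter]
      push_cast
      rfl
    rw [h1, h2, Finset.sum_mul_sum, Finset.sum_div]
    refine Finset.sum_congr rfl fun b _ => ?_
    rw [Finset.sum_div]
    refine Finset.sum_congr rfl fun c _ => ?_
    by_cases hb : a - b ∈ H₁ <;> by_cases hc : a - c ∈ H₂ <;> simp [hb, hc]
  rw [Finset.sum_congr rfl e1, Finset.sum_comm]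
  have e2 : ∀ b ∈ A, ∑ a ∈ A, ∑ c ∈ A, (if a - b ∈ H₁ ∧ a - c ∈ H₂ then
        (1 : ℝ) / (cell A (H₁ ⊓ H₂) a * cell A (H₁ ⊔ H₂) a) else 0) ≤ 1 := by
    intro b hb
    rw [Finset.sum_comm]
    have hm : (0 : ℝ) < cell A (H₁ ⊔ H₂) b := by exact_mod_cast cell_pos _ hb
    have e3 : ∀ c ∈ A, ∑ a ∈ A, (if a - b ∈ H₁ ∧ a - c ∈ H₂ then
        (1 : ℝ) / (cell A (H₁ ⊓ H₂) a * cell A (H₁ ⊔ H₂) a) else 0) ≤
        (if b - c ∈ H₁ ⊔ H₂ then 1 / (cell A (H₁ ⊔ H₂) b : ℝ) else 0) := by
      intro c hc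
      by_cases hex : ∃ a ∈ A, a - b ∈ H₁ ∧ a - c ∈ H₂
      · obtain ⟨a₀, ha₀, h1, h2⟩ := hex
        have hbc : b - c ∈ H₁ ⊔ H₂ := by
          have : b - c = -(a₀ - b) + (a₀ - c) := by abel
          rw [this]
          exact AddSubgroup.add_mem _ (AddSubgroup.mem_sup_left (H₁.neg_mem h1))
            (AddSubgroup.mem_sup_right h2)
        rw [if_pos hbc]
        have hn : (0 : ℝ) < cell A (H₁ ⊓ H₂) a₀ := by exact_mod_cast cell_pos _ ha₀
        rw [← Finset.sum_filter]
        have h3 : (A.filter fun a => a - b ∈ H₁ ∧ a - c ∈ H₂) ⊆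
            A.filter fun a => a₀ - a ∈ H₁ ⊓ H₂ := by
          intro a ha
          rw [Finset.mem_filter] at ha ⊢
          refine ⟨ha.1, AddSubgroup.mem_inf.2 ⟨?_, ?_⟩⟩
          · have : a₀ - a = (a₀ - b) - (a - b) := by abel
            rw [this]; exact H₁.sub_mem h1 ha.2.1
          · have : a₀ - a = (a₀ - c) - (a - c) := by abel
            rw [this]; exact H₂.sub_mem h2 ha.2.2
        calc ∑ a ∈ A.filter (fun a => a - b ∈ H₁ ∧ a - c ∈ H₂),
              (1 : ℝ) / (cell A (H₁ ⊓ H₂) a * cell A (H₁ ⊔ H₂) a)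
            ≤ ∑ a ∈ A.filter (fun a => a₀ - a ∈ H₁ ⊓ H₂),
              (1 : ℝ) / (cell A (H₁ ⊓ H₂) a * cell A (H₁ ⊔ H₂) a) :=
              Finset.sum_le_sum_of_subset_of_nonneg h3 fun _ _ _ => by positivity
          _ = ∑ a ∈ A.filter (fun a => a₀ - a ∈ H₁ ⊓ H₂),
              (1 : ℝ) / (cell A (H₁ ⊓ H₂) a₀ * cell A (H₁ ⊔ H₂) b) := by
              refine Finset.sum_congr rfl fun a ha => ?_
              rw [Finset.mem_filter] at ha
              rw [cell_congr (A := A) ha.2]
              have h4 : a - b ∈ H₁ ⊔ H₂ := by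
                have : a - b = -(a₀ - a) + (a₀ - b) := by abel
                rw [this]
                refine AddSubgroup.add_mem _ (AddSubgroup.neg_mem _ ?_)
                  (AddSubgroup.mem_sup_left h1)
                exact AddSubgroup.mem_sup_left (AddSubgroup.mem_inf.1 ha.2).1
              rw [cell_congr (A := A) h4]
          _ = 1 / (cell A (H₁ ⊔ H₂) b : ℝ) := by
              rw [Finset.sum_const, nsmul_eq_mul]
              have h5 : ((A.filter fun a => a₀ - a ∈ H₁ ⊓ H₂).card : ℝ) =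
                  cell A (H₁ ⊓ H₂) a₀ := rfl
              rw [h5]
              field_simp
      · push Not at hex
        rw [Finset.sum_eq_zero]
        · split_ifs
          · positivity
          · exact le_refl _
        · intro a ha
          rw [if_neg]
          rintro ⟨h1, h2⟩
          exact hex a ha h1 h2
    refine (Finset.sum_le_sum e3).trans ?_
    rw [← Finset.sum_filter, Finset.sum_const, nsmul_eq_mul]
    have h5 : ((A.filter fun c => b - c ∈ H₁ ⊔ H₂).card : ℝ) = cell A (H₁ ⊔ H₂) b := rfl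
    rw [h5, mul_one_div_cancel hm.ne']
  refine (Finset.sum_le_sum e2).trans ?_
  rw [Finset.sum_const, nsmul_eq_mul, mul_one]

/-- **Submodularity of the entropy.** -/
theorem ent_submod {A : Finset Γ} (hA : A.Nonempty) (H₁ H₂ : AddSubgroup Γ) :
    ent A (H₁ ⊓ H₂) + ent A (H₁ ⊔ H₂) ≤ ent A H₁ + ent A H₂ := by
  have hc : (0 : ℝ) < A.card := by exact_mod_cast hA.card_pos
  have key : ∑ a ∈ A, Real.log (cell A H₁ a) + ∑ a ∈ A, Real.log (cell A H₂ a) ≤
      ∑ a ∈ A, Real.log (cell A (H₁ ⊓ H₂) a) + ∑ a ∈ A, Real.log (cell A (H₁ ⊔ H₂) a) := by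
    rw [← sub_nonpos, ← Finset.sum_add_distrib, ← Finset.sum_add_distrib,
      ← Finset.sum_sub_distrib]
    calc ∑ a ∈ A, (Real.log (cell A H₁ a) + Real.log (cell A H₂ a) -
          (Real.log (cell A (H₁ ⊓ H₂) a) + Real.log (cell A (H₁ ⊔ H₂) a)))
        ≤ ∑ a ∈ A, ((cell A H₁ a : ℝ) * cell A H₂ a /
          (cell A (H₁ ⊓ H₂) a * cell A (H₁ ⊔ H₂) a) - 1) := by
          refine Finset.sum_le_sum fun a ha => ?_
          have h1 : (0 : ℝ) < cell A H₁ a := by exact_mod_cast cell_pos _ ha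
          have h2 : (0 : ℝ) < cell A H₂ a := by exact_mod_cast cell_pos _ ha
          have h3 : (0 : ℝ) < cell A (H₁ ⊓ H₂) a := by exact_mod_cast cell_pos _ ha
          have h4 : (0 : ℝ) < cell A (H₁ ⊔ H₂) a := by exact_mod_cast cell_pos _ ha
          rw [← Real.log_mul h1.ne' h2.ne', ← Real.log_mul h3.ne' h4.ne',
            ← Real.log_div (by positivity) (by positivity)]
          exact Real.log_le_sub_one_of_pos (by positivity)
      _ ≤ 0 := by
          rw [Finset.sum_sub_distrib, Finset.sum_const, nsmul_eq_mul, mul_one, sub_nonpos]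
          exact rect H₁ H₂
  unfold ent
  have h1 := div_le_div_of_nonneg_right key hc.le
  rw [add_div, add_div] at h1
  linarith

end Pool.Agent.V5helper53.EQ
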