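import Mathlib
import Pool.Agent.V5helper53.EQ.Ent

/-!
Entropy modulo a subgroup and the number of cosets.
-/

set_option autoImplicit false

open Finset
open scoped Pointwise

namespace Pool.Agent.V5helper53.EQ

variable {Γ : Type*} [AddCommGroup Γ]

/-- If `A` is in `N` cosets of `H` then the entropy is at most `log N`. -/
theorem ent_le_log {A : Finset Γ} (hA : A.Nonempty) {H : AddSubgroup Γ} {T : Finset Γ}
    (hT : ∀ a ∈ A, ∃ t ∈ T, a - t ∈ H) {N : ℝ} (hN : (T.card : ℝ) ≤ N) :
    ent A H ≤ Real.log N := by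
  classical
  have hc : (0 : ℝ) < A.card := by exact_mod_cast hA.card_pos
  have hN0 : 0 < N := by
    obtain ⟨a, ha⟩ := hA
    obtain ⟨t, ht, -⟩ := hT a ha
    have : 0 < T.card := Finset.card_pos.2 ⟨t, ht⟩
    have h1 : (0 : ℝ) < T.card := by exact_mod_cast this
    linarith
  -- the number of cells
  have h1 : ∑ a ∈ A, 1 / (cell A H a : ℝ) ≤ N := by
    have e1 : ∀ a ∈ A, 1 / (cell A H a : ℝ) ≤
        ∑ t ∈ T, if a - t ∈ H then 1 / (cell A H a : ℝ) else 0 := by
      intro a ha
      obtain ⟨t, ht, h⟩ := hT a ha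
      calc 1 / (cell A H a : ℝ) = if a - t ∈ H then 1 / (cell A H a : ℝ) else 0 := by rw [if_pos h]
        _ ≤ _ := Finset.single_le_sum
          (f := fun t => if a - t ∈ H then 1 / (cell A H a : ℝ) else 0)
          (fun s _ => by split_ifs <;> positivity) ht
    refine (Finset.sum_le_sum e1).trans ?_
    rw [Finset.sum_comm]
    have e2 : ∀ t ∈ T, ∑ a ∈ A, (if a - t ∈ H then 1 / (cell A H a : ℝ) else 0) ≤ 1 := by
      intro t _
      rw [← Finset.sum_filter]
      by_cases hex : ∃ a ∈ A, a - t ∈ H
      · obtain ⟨a₀, ha₀, h0⟩ := hex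
        have hp : (0 : ℝ) < cell A H a₀ := by exact_mod_cast cell_pos _ ha₀
        have h2 : (A.filter fun a => a - t ∈ H) = A.filter fun a => a₀ - a ∈ H := by
          ext a
          rw [Finset.mem_filter, Finset.mem_filter]
          refine and_congr_right fun _ => ⟨fun h => ?_, fun h => ?_⟩
          · have : a₀ - a = (a₀ - t) - (a - t) := by abel
            rw [this]; exact H.sub_mem h0 h
          · have : a - t = (a₀ - t) - (a₀ - a) := by abel
            rw [this]; exact H.sub_mem h0 h
        rw [h2]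
        calc ∑ a ∈ A.filter (fun a => a₀ - a ∈ H), 1 / (cell A H a : ℝ)
            = ∑ a ∈ A.filter (fun a => a₀ - a ∈ H), 1 / (cell A H a₀ : ℝ) := by
              refine Finset.sum_congr rfl fun a ha => ?_
              rw [Finset.mem_filter] at ha
              rw [cell_congr (A := A) ha.2]
          _ = 1 := by
              rw [Finset.sum_const, nsmul_eq_mul]
              have h5 : ((A.filter fun a => a₀ - a ∈ H).card : ℝ) = cell A H a₀ := rfl
              rw [h5, mul_one_div_cancel hp.ne']
          _ ≤ 1 := le_refl _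
      · push Not at hex
        rw [Finset.filter_eq_empty_iff.2 fun {a} ha => hex a ha, Finset.sum_empty]
        norm_num
    refine (Finset.sum_le_sum e2).trans ?_
    rw [Finset.sum_const, nsmul_eq_mul, mul_one]
    exact hN
  have h2 : ∑ a ∈ A, (Real.log A.card - Real.log (cell A H a) - Real.log N) ≤ 0 := by
    calc ∑ a ∈ A, (Real.log A.card - Real.log (cell A H a) - Real.log N)
        ≤ ∑ a ∈ A, (A.card / N * (1 / (cell A H a : ℝ)) - 1) := by
          refine Finset.sum_le_sum fun a ha => ?_
          have hp : (0 : ℝ) < cell A H a := by exact_mod_cast cell_pos _ ha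
          rw [← Real.log_div hc.ne' hp.ne', ← Real.log_div (by positivity) hN0.ne']
          refine (Real.log_le_sub_one_of_pos (by positivity)).trans (le_of_eq ?_)
          field_simp
      _ = A.card / N * ∑ a ∈ A, 1 / (cell A H a : ℝ) - A.card := by
          rw [Finset.sum_sub_distrib, ← Finset.mul_sum, Finset.sum_const, nsmul_eq_mul, mul_one]
      _ ≤ A.card / N * N - A.card := by
          have := mul_le_mul_of_nonneg_left h1 (show 0 ≤ (A.card : ℝ) / N by positivity)
          linarith
      _ = 0 := by field_simp; ring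
  rw [Finset.sum_sub_distrib, Finset.sum_sub_distrib, Finset.sum_const, Finset.sum_const,
    nsmul_eq_mul, nsmul_eq_mul] at h2
  unfold ent
  have h3 : (∑ a ∈ A, Real.log (cell A H a)) / A.card ≥ Real.log A.card - Real.log N := by
    rw [ge_iff_le, le_div_iff₀ hc]
    linarith
  linarith

/-- A coset with many elements. -/
theorem exists_big {A : Finset Γ} (hA : A.Nonempty) (H : AddSubgroup Γ) :
    ∃ a ∈ A, (A.card : ℝ) * Real.exp (-ent A H) ≤ cell A H a := by
  have hc : (0 : ℝ) < A.card := by exact_mod_cast hA.card_pos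
  by_contra h
  push Not at h
  have h1 : ∑ a ∈ A, Real.log (cell A H a) < ∑ _a ∈ A, (Real.log A.card - ent A H) := by
    refine Finset.sum_lt_sum_of_nonempty hA fun a ha => ?_
    have hp : (0 : ℝ) < cell A H a := by exact_mod_cast cell_pos _ ha
    have h2 := Real.log_lt_log hp (h a ha)
    rw [Real.log_mul hc.ne' (Real.exp_pos _).ne', Real.log_exp] at h2
    linarith
  rw [Finset.sum_const, nsmul_eq_mul] at h1
  unfold ent at h1
  have h3 : (A.card : ℝ) * (Real.log A.card - (Real.log A.card -
      (∑ a ∈ A, Real.log (cell A H a)) / A.card)) = ∑ a ∈ A, Real.log (cell A H a) := by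
    field_simp
    ring
  linarith

/-- Ruzsa's covering lemma: from a large part in a coset to a covering. -/
theorem cover_of_part [DecidableEq Γ] {A A' B : Finset Γ} {H : AddSubgroup Γ} (hB : B.Nonempty)
    (hBA : B ⊆ A) (hBH : ∀ b ∈ B, ∀ b' ∈ B, b - b' ∈ H) {K L : ℝ}
    (hK : ((A' + A).card : ℝ) ≤ K * A.card) (hL : (A.card : ℝ) ≤ L * B.card) (hK0 : 0 ≤ K) :
    ∃ T : Finset Γ, T ⊆ A' ∧ (T.card : ℝ) ≤ K * L ∧ ∀ a ∈ A', ∃ t ∈ T, a - t ∈ H := by
  have h1 : ((A' + B).card : ℝ) ≤ K * L * B.card := by
    calc ((A' + B).card : ℝ) ≤ (A' + A).card := by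
          exact_mod_cast Finset.card_le_card (Finset.add_subset_add_left hBA)
      _ ≤ K * A.card := hK
      _ ≤ K * (L * B.card) := mul_le_mul_of_nonneg_left hL hK0
      _ = _ := by ring
  obtain ⟨T, hTA, hT, hcov⟩ := Finset.ruzsa_covering_add hB h1
  refine ⟨T, hTA, hT, fun a ha => ?_⟩
  obtain ⟨t, ht, d, hd, h⟩ := Finset.mem_add.1 (hcov ha)
  obtain ⟨b, hb, b', hb', h'⟩ := Finset.mem_sub.1 hd
  refine ⟨t, ht, ?_⟩
  have : a - t = b - b' := by rw [← h, ← h']; abel
  rw [this]
  exact hBH b hb b' hb'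

/-- From the entropy to a covering. -/
theorem cover_of_ent [DecidableEq Γ] {A A' : Finset Γ} (hA : A.Nonempty) (H : AddSubgroup Γ)
    {K : ℝ} (hK : ((A' + A).card : ℝ) ≤ K * A.card) (hK0 : 0 ≤ K) :
    ∃ T : Finset Γ, T ⊆ A' ∧ (T.card : ℝ) ≤ K * Real.exp (ent A H) ∧
      ∀ a ∈ A', ∃ t ∈ T, a - t ∈ H := by
  classical
  obtain ⟨a₀, ha₀, h⟩ := exists_big hA H
  refine cover_of_part (A := A) (B := A.filter fun b => a₀ - b ∈ H) ⟨a₀, ?_⟩
    (Finset.filter_subset _ _) ?_ hK ?_ hK0
  · rw [Finset.mem_filter, sub_self]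
    exact ⟨ha₀, H.zero_mem⟩
  · intro b hb b' hb'
    rw [Finset.mem_filter] at hb hb'
    have : b - b' = (a₀ - b') - (a₀ - b) := by abel
    rw [this]
    exact H.sub_mem hb'.2 hb.2
  · have h1 : ((A.filter fun b => a₀ - b ∈ H).card : ℝ) = cell A H a₀ := by
      unfold cell
      congr
    rw [h1]
    have h2 := mul_le_mul_of_nonneg_left h (Real.exp_pos (ent A H)).le
    calc (A.card : ℝ) = Real.exp (ent A H) * (A.card * Real.exp (-ent A H)) := by
          rw [Real.exp_neg]
          field_simp
      _ ≤ _ := h2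

/-- the entropy modulo a finite subgroup is large -/
theorem log_sub_le_ent {A : Finset Γ} (hA : A.Nonempty) (H : AddSubgroup Γ) [Finite H] :
    Real.log A.card - Real.log (Nat.card H) ≤ ent A H := by
  classical
  have hc : (0 : ℝ) < A.card := by exact_mod_cast hA.card_pos
  unfold ent
  have h1 : ∀ a ∈ A, cell A H a ≤ Nat.card H := by
    intro a _
    unfold cell
    have := Fintype.ofFinite H
    rw [Nat.card_eq_fintype_card, ← Finset.card_univ]
    have hinj : Set.InjOn (fun b : Γ => a - b) ((A.filter fun b => a - b ∈ H : Finset Γ) : Set Γ) :=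
      fun b _ b' _ h => sub_right_injective h
    refine Finset.card_le_card_of_injOn
      (fun b => if h : a - b ∈ H then (⟨a - b, h⟩ : H) else 0) (fun b _ => Finset.mem_univ _) ?_
    intro b hb b' hb' h
    rw [Finset.mem_coe, Finset.mem_filter] at hb hb'
    simp only [hb.2, hb'.2, dif_pos, Subtype.mk.injEq] at h
    exact sub_right_injective h
  have h2 : (∑ a ∈ A, Real.log (cell A H a)) / A.card ≤ Real.log (Nat.card H) := by
    rw [div_le_iff₀ hc]
    calc ∑ a ∈ A, Real.log (cell A H a) ≤ ∑ _a ∈ A, Real.log (Nat.card H) := by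
          refine Finset.sum_le_sum fun a ha => Real.log_le_log ?_ ?_
          · exact_mod_cast cell_pos H ha
          · exact_mod_cast h1 a ha
      _ = Real.log (Nat.card H) * A.card := by rw [Finset.sum_const, nsmul_eq_mul, mul_comm]
  linarith

/-- the entropy is invariant under automorphisms and translations -/
theorem ent_map {A B : Finset Γ} {H : AddSubgroup Γ} (w : Γ ≃+ Γ) (t : Γ)
    (hB : ∀ b, b ∈ B ↔ ∃ a ∈ A, b = w a + t) :
    ent B (H.map w.toAddMonoidHom) = ent A H := by
  classical
  set f : Γ → Γ := fun a => w a + t with hf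
  have hinj : Function.Injective f := fun a a' h => w.injective (add_right_cancel h)
  have hBe : B = A.image f := by
    ext b
    rw [hB, Finset.mem_image]
    constructor
    · rintro ⟨a, ha, rfl⟩
      exact ⟨a, ha, rfl⟩
    · rintro ⟨a, ha, rfl⟩
      exact ⟨a, ha, rfl⟩
  have hmem : ∀ x : Γ, w x ∈ H.map w.toAddMonoidHom ↔ x ∈ H := by
    intro x
    rw [AddSubgroup.mem_map]
    constructor
    · rintro ⟨y, hy, h⟩
      have : y = x := w.injective h
      rwa [← this]
    · intro h
      exact ⟨x, h, rfl⟩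
  have hcell : ∀ a, cell B (H.map w.toAddMonoidHom) (f a) = cell A H a := by
    intro a
    unfold cell
    rw [hBe, Finset.filter_image, Finset.card_image_of_injective _ hinj]
    congr 1
    ext b
    rw [Finset.mem_filter, Finset.mem_filter]
    refine and_congr_right fun _ => ?_
    have : f a - f b = w (a - b) := by
      rw [map_sub]
      exact add_sub_add_right_eq_sub _ _ _
    rw [this, hmem]
  unfold ent
  have h1 : B.card = A.card := by rw [hBe, Finset.card_image_of_injective _ hinj]
  have h2 : ∑ b ∈ B, Real.log (cell B (H.map w.toAddMonoidHom) b) =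
      ∑ a ∈ A, Real.log (cell A H a) := by
    conv_lhs => rw [hBe, Finset.sum_image fun a _ b _ h => hinj h]
    refine Finset.sum_congr rfl fun a _ => ?_
    rw [← hBe, hcell]
  rw [h1, h2]

end Pool.Agent.V5helper53.EQ
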