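import Mathlib
import Pool.Agent.V5helper53.EQ.Cov

/-!
The minimal minimiser of the entropy plus a modular function is canonical.
-/

set_option autoImplicit false

open Finset

namespace Pool.Agent.V5helper53.EQ

variable {Γ : Type*} [AddCommGroup Γ]

/-- the entropies take only finitely many values -/
theorem finite_range {ι : Type*} [Fintype ι] (A : ι → Finset Γ) :
    (Set.range fun H : AddSubgroup Γ => ∑ i, ent (A i) H).Finite := by
  classical
  let code : AddSubgroup Γ → ((i : ι) → {a // a ∈ A i} → Fin ((A i).card + 1)) := fun H i a =>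
    ⟨cell (A i) H a.1, Nat.lt_succ_of_le (cell_le H a.1)⟩
  let ψ : ((i : ι) → {a // a ∈ A i} → Fin ((A i).card + 1)) → ℝ := fun c =>
    ∑ i, (Real.log (A i).card - (∑ a : {a // a ∈ A i}, Real.log ((c i a : ℕ) : ℝ)) / (A i).card)
  have h1 : ∀ H, ψ (code H) = ∑ i, ent (A i) H := by
    intro H
    refine Finset.sum_congr rfl fun i _ => ?_
    unfold ent
    congr 2
    exact Finset.sum_coe_sort (A i) fun a => Real.log (cell (A i) H a)
  refine (Set.finite_range ψ).subset ?_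
  rintro x ⟨H, rfl⟩
  exact ⟨code H, h1 H⟩

/-- **The canonical minimiser.** -/
theorem canon {P : Type*} [Lattice P] {ι : Type*} [Fintype ι] (A : ι → Finset Γ)
    (hA : ∀ i, (A i).Nonempty) (h : P → AddSubgroup Γ) (ok : P → Prop)
    (hok : ∀ p q, ok p → ok q → ok (p ⊓ q) ∧ ok (p ⊔ q))
    (hinf : ∀ p q, h (p ⊓ q) = h p ⊓ h q) (hsup : ∀ p q, h p ⊔ h q ≤ h (p ⊔ q))
    (g : P → ℝ)
    (gmod : ∀ p q, ok p → ok q → g (p ⊓ q) + g (p ⊔ q) ≤ g p + g q)
    (gstr : ∀ p q, ok p → ok q → p < q → g p < g q)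
    (gdisc : ∀ M : ℝ, {x : ℝ | ∃ p, ok p ∧ g p = x ∧ x ≤ M}.Finite)
    (p₁ : P) (hp₁ : ok p₁) :
    ∃ p₀, ok p₀ ∧ (∑ i, ent (A i) (h p₀) + g p₀ ≤ ∑ i, ent (A i) (h p₁) + g p₁) ∧
      ∀ q, ok q → g q = g p₀ → ∑ i, ent (A i) (h q) = ∑ i, ent (A i) (h p₀) → q = p₀ := by
  classical
  set F : P → ℝ := fun p => ∑ i, ent (A i) (h p) with hF
  set G : P → ℝ := fun p => F p + g p with hG
  have hF0 : ∀ p, 0 ≤ F p := fun p => Finset.sum_nonneg fun i _ => ent_nonneg (hA i) _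
  have hFfin : (Set.range fun H : AddSubgroup Γ => ∑ i, ent (A i) H).Finite := finite_range A
  set V : Set ℝ := {x | ∃ p, ok p ∧ G p = x ∧ x ≤ G p₁} with hV
  have hVfin : V.Finite := by
    refine (hFfin.image2 (fun x y => x + y) (gdisc (G p₁))).subset ?_
    rintro x ⟨p, hp, rfl, hx⟩
    refine ⟨F p, ⟨h p, rfl⟩, g p, ⟨p, hp, rfl, ?_⟩, rfl⟩
    have := hF0 p
    simp only [hG] at hx ⊢
    linarith
  obtain ⟨x₀, ⟨pa, hpa, hpa2, hpa3⟩, hx₀⟩ := Set.exists_min_image V id hVfin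
    ⟨G p₁, p₁, hp₁, rfl, le_refl _⟩
  have hmin : ∀ p, ok p → x₀ ≤ G p := by
    intro p hp
    by_cases hle : G p ≤ G p₁
    · exact hx₀ (G p) ⟨p, hp, rfl, hle⟩
    · push Not at hle
      linarith
  set W : Set ℝ := {y | ∃ p, ok p ∧ G p = x₀ ∧ g p = y} with hW
  have hWfin : W.Finite := by
    refine (gdisc x₀).subset ?_
    rintro y ⟨p, hp, hpx, rfl⟩
    refine ⟨p, hp, rfl, ?_⟩
    have := hF0 p
    have h2 : F p + g p = x₀ := hpx
    linarith
  obtain ⟨y₀, ⟨p₀, hp₀, hG₀, hg₀⟩, hy₀⟩ := Set.exists_min_image W id hWfin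
    ⟨g pa, pa, hpa, hpa2, rfl⟩
  refine ⟨p₀, hp₀, ?_, ?_⟩
  · have h1 : F p₀ + g p₀ = x₀ := hG₀
    have h2 := hmin p₁ hp₁
    change F p₀ + g p₀ ≤ F p₁ + g p₁
    rw [h1]
    exact h2
  · intro q hq hgq hFq
    have hGq : G q = x₀ := by
      have h1 : F p₀ + g p₀ = x₀ := hG₀
      have h2 : F q = F p₀ := hFq
      change F q + g q = x₀
      rw [h2, hgq, h1]
    obtain ⟨hr, hs⟩ := hok p₀ q hp₀ hq
    have hFs : F (p₀ ⊓ q) + F (p₀ ⊔ q) ≤ F p₀ + F q := by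
      simp only [hF]
      rw [← Finset.sum_add_distrib, ← Finset.sum_add_distrib]
      refine Finset.sum_le_sum fun i _ => ?_
      have h1 := ent_submod (hA i) (h p₀) (h q)
      have h2 := ent_anti (A := A i) (hsup p₀ q)
      rw [hinf]
      linarith
    have h3 := gmod p₀ q hp₀ hq
    have h4 := hmin _ hr
    have h5 := hmin _ hs
    have h6 : F p₀ + g p₀ = x₀ := hG₀
    have h7 : F q + g q = x₀ := hGq
    have h8 : G (p₀ ⊓ q) = x₀ := by
      have h9 : G (p₀ ⊓ q) = F (p₀ ⊓ q) + g (p₀ ⊓ q) := rfl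
      have h10 : G (p₀ ⊔ q) = F (p₀ ⊔ q) + g (p₀ ⊔ q) := rfl
      linarith
    have h9 : y₀ ≤ g (p₀ ⊓ q) := hy₀ (g (p₀ ⊓ q)) ⟨_, hr, h8, rfl⟩
    have h10 : p₀ ⊓ q = p₀ := by
      rcases lt_or_eq_of_le (inf_le_left : p₀ ⊓ q ≤ p₀) with h | h
      · have := gstr _ _ hr hp₀ h
        linarith
      · exact h
    have h11 : p₀ ≤ q := inf_eq_left.1 h10
    rcases lt_or_eq_of_le h11 with h | h
    · have := gstr _ _ hp₀ hq h
      linarith
    · exact h.symm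

end Pool.Agent.V5helper53.EQ
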