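import Mathlib

/-!
A large part of the set has a finite orbit up to translations.
-/

set_option autoImplicit false

open Finset
open scoped Pointwise

namespace Pool.Agent.V5helper53.EQ

variable {Γ : Type*} [AddCommGroup Γ] {G : Type*} [Group G] [DistribMulAction G Γ]

variable (G) in
/-- the elements of `G` which map `B` to a translate of `B` -/
def tst (B : Finset Γ) : Subgroup G where
  carrier := {g | ∃ t : Γ, ∀ x, x ∈ B ↔ g • x + t ∈ B}
  mul_mem' := by
    rintro g g' ⟨t, ht⟩ ⟨t', ht'⟩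
    refine ⟨g • t' + t, fun x => ?_⟩
    rw [ht' x, ht (g' • x + t'), smul_add, add_assoc, mul_smul]
  one_mem' := ⟨0, fun x => by simp⟩
  inv_mem' := by
    rintro g ⟨t, ht⟩
    refine ⟨-(g⁻¹ • t), fun x => ?_⟩
    have h1 : g⁻¹ • x + -(g⁻¹ • t) = g⁻¹ • (x - t) := by
      rw [smul_sub, sub_eq_add_neg]
    rw [h1, ht (g⁻¹ • (x - t)), smul_inv_smul, sub_add_cancel]

theorem mem_tst {B : Finset Γ} {g : G} :
    g ∈ tst G B ↔ ∃ t : Γ, ∀ x, x ∈ B ↔ g • x + t ∈ B := Iff.rfl

theorem pigeon [DecidableEq Γ] {A : Finset Γ} (hA : A.Nonempty) (g : Γ → Γ) {K : ℝ}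
    (hK : ((A + A.image g).card : ℝ) ≤ K * A.card) :
    ∃ x, (A.card : ℝ) ≤ K * (A.filter fun b => x - g b ∈ A).card := by
  by_contra hcon
  push Not at hcon
  have hc : (0 : ℝ) < A.card := by exact_mod_cast hA.card_pos
  have h1 : ∑ x ∈ A + A.image g, (A.filter fun b => x - g b ∈ A).card = A.card * A.card := by
    simp only [Finset.card_filter]
    rw [Finset.sum_comm, ← smul_eq_mul, ← Finset.sum_const]
    refine Finset.sum_congr rfl fun b hb => ?_
    rw [← Finset.card_filter]
    have h2 : (A + A.image g).filter (fun x => x - g b ∈ A) = A.image fun a => a + g b := by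
      ext x
      rw [Finset.mem_filter, Finset.mem_image]
      constructor
      · rintro ⟨-, h⟩
        exact ⟨_, h, by abel⟩
      · rintro ⟨a, ha, rfl⟩
        refine ⟨Finset.add_mem_add ha (Finset.mem_image_of_mem _ hb), ?_⟩
        rwa [add_sub_cancel_right]
    rw [h2, Finset.card_image_of_injective _ (add_left_injective (g b))]
  have h3 : ∑ x ∈ A + A.image g, K * ((A.filter fun b => x - g b ∈ A).card : ℝ) <
      ∑ _x ∈ A + A.image g, (A.card : ℝ) := by
    refine Finset.sum_lt_sum_of_nonempty ?_ fun x _ => hcon x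
    exact hA.add (hA.image g)
  rw [← Finset.mul_sum, ← Nat.cast_sum, h1, Finset.sum_const, nsmul_eq_mul] at h3
  push_cast at h3
  nlinarith

/-- **A large part of `A` has a finite orbit up to translations** (B. H. Neumann's lemma). -/
theorem exists_finite_orbit [DecidableEq Γ] {A : Finset Γ} (hA : A.Nonempty) {K : ℝ}
    (hK : ∀ g : G, ((A + g • A).card : ℝ) ≤ K * A.card) :
    ∃ B ⊆ A, (A.card : ℝ) ≤ K * B.card ∧ (tst G B).FiniteIndex := by
  classical
  let rel : G → Finset Γ × Finset Γ → Prop := fun g p =>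
    ∃ t : Γ, ∀ x, x ∈ p.1 ↔ t - g • x ∈ p.2
  let s : Finset (Finset Γ × Finset Γ) := (A.powerset ×ˢ A.powerset).filter fun p =>
    (A.card : ℝ) ≤ K * p.1.card ∧ ∃ g, rel g p
  let c : Finset Γ × Finset Γ → G := fun p => if h : ∃ g, rel g p then h.choose else 1
  have hcov : ⋃ p ∈ s, c p • ((tst G p.1 : Subgroup G) : Set G) = Set.univ := by
    refine Set.iUnion₂_eq_univ_iff.2 fun g => ?_
    obtain ⟨x, hx⟩ := pigeon hA (fun a => g • a) (hK g)
    set B' := A.filter fun b => x - g • b ∈ A with hB'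
    set B := B'.image fun b => x - g • b with hB
    have hrel : rel g (B', B) := by
      refine ⟨x, fun y => ?_⟩
      constructor
      · intro hy
        exact Finset.mem_image_of_mem _ hy
      · intro hy
        obtain ⟨z, hz, h⟩ := Finset.mem_image.1 hy
        have : z = y := MulAction.injective g (sub_right_injective h)
        rwa [← this]
    refine ⟨(B', B), ?_, ?_⟩
    · refine Finset.mem_filter.2 ⟨Finset.mem_product.2 ⟨Finset.mem_powerset.2
        (Finset.filter_subset _ _), Finset.mem_powerset.2 fun y hy => ?_⟩, hx, g, hrel⟩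
      obtain ⟨z, hz, rfl⟩ := Finset.mem_image.1 hy
      exact (Finset.mem_filter.1 hz).2
    · have hex : ∃ g, rel g (B', B) := ⟨g, hrel⟩
      have hc : c (B', B) = hex.choose := dif_pos hex
      rw [hc]
      obtain ⟨t₀, ht₀⟩ := hex.choose_spec
      set g₀ := hex.choose
      obtain ⟨t, ht⟩ := hrel
      rw [mem_leftCoset_iff]
      refine ⟨g₀⁻¹ • (t₀ - t), fun y => ?_⟩
      have h1 : (g₀⁻¹ * g) • y + g₀⁻¹ • (t₀ - t) = g₀⁻¹ • (t₀ - (t - g • y)) := by
        have : t₀ - (t - g • y) = g • y + (t₀ - t) := by abel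
        rw [this, smul_add, mul_smul]
      have h2 : t₀ - g₀ • g₀⁻¹ • (t₀ - (t - g • y)) = t - g • y := by
        rw [smul_inv_smul, sub_sub_cancel]
      rw [h1, ht y, ht₀ (g₀⁻¹ • (t₀ - (t - g • y))), h2]
  obtain ⟨p, hp, hfin⟩ := Subgroup.exists_finiteIndex_of_leftCoset_cover hcov
  obtain ⟨h1, h2, -⟩ := Finset.mem_filter.1 hp
  exact ⟨p.1, Finset.mem_powerset.1 (Finset.mem_product.1 h1).1, h2, hfin⟩

end Pool.Agent.V5helper53.EQ
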