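import Mathlib

/-!
The subgroups of an abelian group given by the finite-dimensional subspaces of its rational hull.
-/

set_option autoImplicit false

open Finset
open scoped TensorProduct nonZeroDivisors

namespace Pool.Agent.V5helper53.EQ

variable {Γ : Type*} [AddCommGroup Γ]

/-- the map to the rational hull -/
noncomputable def jm (Γ : Type*) [AddCommGroup Γ] : Γ →ₗ[ℤ] ℚ ⊗[ℤ] Γ := TensorProduct.mk ℤ ℚ Γ 1

instance jmLoc : IsLocalizedModule (nonZeroDivisors ℤ) (jm Γ) :=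
  IsLocalization.tensorProduct_isLocalizedModule ..

theorem jm_eq_zero {x : Γ} : jm Γ x = 0 ↔ ∃ n : ℤ, n ≠ 0 ∧ n • x = 0 := by
  rw [IsLocalizedModule.eq_zero_iff (nonZeroDivisors ℤ) (jm Γ)]
  constructor
  · rintro ⟨c, hc⟩
    exact ⟨c, nonZeroDivisors.coe_ne_zero c, hc⟩
  · rintro ⟨n, hn, h⟩
    exact ⟨⟨n, mem_nonZeroDivisors_of_ne_zero hn⟩, h⟩

/-- the subgroup of the elements of `Γ` with image in `U` -/
noncomputable def hU (U : Submodule ℚ (ℚ ⊗[ℤ] Γ)) : AddSubgroup Γ :=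
  U.toAddSubgroup.comap (jm Γ).toAddMonoidHom

theorem mem_hU {U : Submodule ℚ (ℚ ⊗[ℤ] Γ)} {x : Γ} : x ∈ hU U ↔ jm Γ x ∈ U := Iff.rfl

/-- an automorphism acts on the rational hull -/
noncomputable def wQ (w : Γ ≃+ Γ) : (ℚ ⊗[ℤ] Γ) ≃ₗ[ℚ] (ℚ ⊗[ℤ] Γ) :=
  LinearEquiv.ofLinearMap (LinearMap.baseChange ℚ (w.toIntLinearEquiv : Γ →ₗ[ℤ] Γ))
    (LinearMap.baseChange ℚ (w.symm.toIntLinearEquiv : Γ →ₗ[ℤ] Γ))
    (by
      rw [← LinearMap.baseChange_comp]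
      have : (w.toIntLinearEquiv : Γ →ₗ[ℤ] Γ) ∘ₗ (w.symm.toIntLinearEquiv : Γ →ₗ[ℤ] Γ) =
          LinearMap.id := by
        ext x; simp
      rw [this, LinearMap.baseChange_id])
    (by
      rw [← LinearMap.baseChange_comp]
      have : (w.symm.toIntLinearEquiv : Γ →ₗ[ℤ] Γ) ∘ₗ (w.toIntLinearEquiv : Γ →ₗ[ℤ] Γ) =
          LinearMap.id := by
        ext x; simp
      rw [this, LinearMap.baseChange_id])

theorem wQ_jm (w : Γ ≃+ Γ) (x : Γ) : wQ w (jm Γ x) = jm Γ (w x) := by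
  change (LinearMap.baseChange ℚ (w.toIntLinearEquiv : Γ →ₗ[ℤ] Γ)) ((1 : ℚ) ⊗ₜ[ℤ] x) =
    (1 : ℚ) ⊗ₜ[ℤ] (w x)
  rw [LinearMap.baseChange_tmul]
  rfl

theorem wQ_symm_jm (w : Γ ≃+ Γ) (x : Γ) : (wQ w).symm (jm Γ x) = jm Γ (w.symm x) := by
  rw [LinearEquiv.symm_apply_eq, wQ_jm, AddEquiv.apply_symm_apply]

theorem hU_map (w : Γ ≃+ Γ) (U : Submodule ℚ (ℚ ⊗[ℤ] Γ)) :
    hU (U.map (wQ w : (ℚ ⊗[ℤ] Γ) →ₗ[ℚ] (ℚ ⊗[ℤ] Γ))) = (hU U).map w.toAddMonoidHom := by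
  ext x
  rw [mem_hU, Submodule.mem_map, AddSubgroup.mem_map]
  constructor
  · rintro ⟨y, hy, h⟩
    refine ⟨w.symm x, ?_, by simp⟩
    rw [mem_hU, ← wQ_symm_jm, ← h]
    simpa using hy
  · rintro ⟨y, hy, rfl⟩
    exact ⟨jm Γ y, hy, wQ_jm w y⟩

theorem finrank_le (U : Submodule ℚ (ℚ ⊗[ℤ] Γ)) [FiniteDimensional ℚ U] (H : AddSubgroup Γ)
    (hH : H ≤ hU U) : Module.finrank ℤ H ≤ Module.finrank ℚ U := by
  obtain ⟨f, hf⟩ := exists_linearIndependent_of_le_finrank (R := ℤ) (M := H) le_rfl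
  have h1 : LinearIndependent ℤ (fun i => ((f i : H) : Γ)) :=
    hf.map' (H.subtype.toIntLinearMap) (by
      rw [LinearMap.ker_eq_bot]
      exact Subtype.val_injective)
  have h2 : LinearIndependent ℚ (fun i => jm Γ ((f i : H) : Γ)) :=
    h1.of_isLocalizedModule ℚ (nonZeroDivisors ℤ) (jm Γ)
  have h3 : LinearIndependent ℚ (fun i => (⟨jm Γ ((f i : H) : Γ), hH (f i).2⟩ : U)) := by
    refine LinearIndependent.of_comp U.subtype ?_
    exact h2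
  have h4 := h3.fintype_card_le_finrank
  simpa using h4

end Pool.Agent.V5helper53.EQ
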