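import Mathlib
import Pool.Agent.V5helper53.EQ.Canon
import Pool.Agent.V5helper53.EQ.Vec
import Pool.Agent.V5helper53.EQ.Neu

/-!
The invariant subgroup of small rank.
-/

set_option autoImplicit false

open Finset
open scoped Pointwise TensorProduct

namespace Pool.Agent.V5helper53.EQ

variable {Γ : Type*} [AddCommGroup Γ] {G : Type*} [Group G] [DistribMulAction G Γ]

theorem coset_mem [DecidableEq Γ] (B : Finset Γ) {u v : G} (h : v⁻¹ * u ∈ tst G B) :
    ∃ t : Γ, ∀ b, b ∈ u • B ↔ ∃ a ∈ v • B, b = a + t := by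
  obtain ⟨t, ht⟩ := h
  set s : G := v⁻¹ * u with hs
  have h2 : u = v * s := by rw [hs]; group
  refine ⟨-(v • t), fun b => ?_⟩
  have h3 : b ∈ u • B ↔ b + v • t ∈ v • B := by
    rw [← Finset.inv_smul_mem_iff, ← Finset.inv_smul_mem_iff, h2, mul_inv_rev, mul_smul,
      ht (s⁻¹ • v⁻¹ • b), smul_inv_smul, smul_add, inv_smul_smul]
  rw [h3]
  constructor
  · intro h
    exact ⟨_, h, by abel⟩
  · rintro ⟨a, ha, rfl⟩
    rw [neg_add_cancel_right]
    exact ha

/-- the members of the orbit of `B` are permuted up to translations -/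
theorem orbit_perm [DecidableEq Γ] (B : Finset Γ) (g : G) (i : G ⧸ tst G B) :
    ∃ t : Γ, ∀ b, b ∈ (g • i).out • B ↔ ∃ a ∈ i.out • B, b = g • a + t := by
  have h1 : ((g * i.out : G) : G ⧸ tst G B) = (((g • i).out : G) : G ⧸ tst G B) := by
    rw [QuotientGroup.out_eq']
    conv_rhs => rw [← QuotientGroup.out_eq' i]
    rfl
  obtain ⟨t, ht⟩ := coset_mem B (QuotientGroup.eq.1 h1)
  refine ⟨t, fun b => ?_⟩
  rw [ht b]
  constructor
  · rintro ⟨a, ha, rfl⟩
    rw [mul_smul] at ha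
    obtain ⟨a', ha', rfl⟩ := Finset.mem_smul_finset.1 ha
    exact ⟨a', ha', rfl⟩
  · rintro ⟨a, ha, rfl⟩
    exact ⟨g • a, by rw [mul_smul]; exact Finset.smul_mem_smul_finset ha, rfl⟩

/-- the differences of the elements of the members of the orbit -/
theorem orbit_diff [DecidableEq Γ] {B : Finset Γ} (g : G) {b b' : Γ} (hb : b ∈ B) (hb' : b' ∈ B) :
    g • (b - b') ∈ (g : G ⧸ tst G B).out • B - (g : G ⧸ tst G B).out • B := by
  have h1 : ((g : G) : G ⧸ tst G B) = (((g : G ⧸ tst G B).out : G) : G ⧸ tst G B) := by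
    rw [QuotientGroup.out_eq']
  obtain ⟨t, ht⟩ := coset_mem B (QuotientGroup.eq.1 h1)
  have h2 : g • b + t ∈ (g : G ⧸ tst G B).out • B :=
    (ht _).2 ⟨g • b, Finset.smul_mem_smul_finset hb, rfl⟩
  have h3 : g • b' + t ∈ (g : G ⧸ tst G B).out • B :=
    (ht _).2 ⟨g • b', Finset.smul_mem_smul_finset hb', rfl⟩
  have h4 : g • (b - b') = (g • b + t) - (g • b' + t) := by rw [smul_sub]; abel
  rw [h4]
  exact Finset.sub_mem_sub h2 h3

/-- the automorphism given by a group element -/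
def aeq (g : G) : Γ ≃+ Γ := DistribMulAction.toAddEquiv Γ g

@[simp] theorem aeq_apply (g : G) (x : Γ) : aeq g x = g • x := rfl

/-- **The invariant subspace.** -/
theorem subspace_core [DecidableEq Γ] {B : Finset Γ} (hB : B.Nonempty)
    (hfin : (tst G B).FiniteIndex) (U₁ : Submodule ℚ (ℚ ⊗[ℤ] Γ)) [FiniteDimensional ℚ U₁]
    {ℓ c : ℝ} (hc : 0 < c) (hℓ : ∀ g : G, ent (g • B) (hU U₁) ≤ ℓ) :
    ∃ U₀ : Submodule ℚ (ℚ ⊗[ℤ] Γ), FiniteDimensional ℚ U₀ ∧
      (∀ g : G, U₀.map (wQ (aeq (Γ := Γ) g)).toLinearMap = U₀) ∧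
      ∃ g : G, ent (g • B) (hU U₀) + c * Module.finrank ℚ U₀ ≤ ℓ + c * Module.finrank ℚ U₁ := by
  classical
  have := hfin
  have : Finite (G ⧸ tst G B) := inferInstance
  have : Fintype (G ⧸ tst G B) := Fintype.ofFinite _
  set ι := G ⧸ tst G B with hι
  have : Nonempty ι := ⟨((1 : G) : G ⧸ tst G B)⟩
  set N : ℝ := (Fintype.card ι : ℝ) with hN
  have hN0 : 0 < N := by rw [hN]; exact_mod_cast Fintype.card_pos
  set A : ι → Finset Γ := fun i => i.out • B with hA
  have hcN : 0 < N * c := mul_pos hN0 hc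
  obtain ⟨U₀, hU₀, hle, huni⟩ := canon (P := Submodule ℚ (ℚ ⊗[ℤ] Γ)) A
    (fun i => hB.smul_finset) hU (fun U => FiniteDimensional ℚ U)
    (fun p q hp hq => by
      have : FiniteDimensional ℚ p := hp
      have : FiniteDimensional ℚ q := hq
      exact ⟨inferInstance, inferInstance⟩)
    (fun p q => rfl)
    (fun p q => by
      refine sup_le ?_ ?_
      · intro x hx
        exact (le_sup_left : p ≤ p ⊔ q) hx
      · intro x hx
        exact (le_sup_right : q ≤ p ⊔ q) hx)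
    (fun U => N * c * Module.finrank ℚ U)
    (fun p q hp hq => by
      have : FiniteDimensional ℚ p := hp
      have : FiniteDimensional ℚ q := hq
      have h := Submodule.finrank_sup_add_finrank_inf_eq p q
      have h' : (Module.finrank ℚ ↥(p ⊔ q) : ℝ) + Module.finrank ℚ ↥(p ⊓ q) =
        Module.finrank ℚ p + Module.finrank ℚ q := by exact_mod_cast h
      nlinarith)
    (fun p q hp hq hpq => by
      have : FiniteDimensional ℚ p := hp
      have : FiniteDimensional ℚ q := hq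
      have h := Submodule.finrank_lt_finrank_of_lt hpq
      have h' : (Module.finrank ℚ p : ℝ) < Module.finrank ℚ q := by exact_mod_cast h
      exact mul_lt_mul_of_pos_left h' hcN)
    (fun M => by
      refine ((Set.finite_Iic (⌊M / (N * c)⌋₊)).image fun k : ℕ => N * c * (k : ℝ)).subset ?_
      rintro x ⟨p, -, rfl, hx⟩
      refine ⟨Module.finrank ℚ p, ?_, rfl⟩
      rw [Set.mem_Iic]
      refine Nat.le_floor ?_
      rw [le_div_iff₀ hcN]
      linarith)
    U₁ inferInstance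
  have : FiniteDimensional ℚ U₀ := hU₀
  refine ⟨U₀, hU₀, fun g => ?_, ?_⟩
  · refine huni _ ?_ ?_ ?_
    · exact inferInstance
    · rw [LinearEquiv.finrank_map_eq]
    · rw [hU_map]
      rw [← Equiv.sum_comp (MulAction.toPerm g : Equiv.Perm ι)]
      refine Finset.sum_congr rfl fun i _ => ?_
      obtain ⟨t, ht⟩ := orbit_perm B g i
      exact ent_map (aeq g) t (by simpa using ht)
  · by_contra hcon
    push Not at hcon
    have h1 : ∑ _i : ι, (ℓ + c * Module.finrank ℚ U₁) <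
        ∑ i : ι, (ent (A i) (hU U₀) + c * Module.finrank ℚ U₀) :=
      Finset.sum_lt_sum_of_nonempty Finset.univ_nonempty fun i _ => hcon _
    simp only [Finset.sum_add_distrib, Finset.sum_const, Finset.card_univ, nsmul_eq_mul] at h1
    have h2 : ∑ i, ent (A i) (hU U₁) ≤ N * ℓ := by
      calc ∑ i, ent (A i) (hU U₁) ≤ ∑ _i : ι, ℓ := Finset.sum_le_sum fun i _ => hℓ _
        _ = N * ℓ := by rw [Finset.sum_const, Finset.card_univ, nsmul_eq_mul]
    change ∑ i, ent (A i) (hU U₀) + N * c * Module.finrank ℚ U₀ ≤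
      ∑ i, ent (A i) (hU U₁) + N * c * Module.finrank ℚ U₁ at hle
    rw [← hN] at h1
    linarith

/-- **The invariant subgroup of small rank.** -/
theorem rank_core [DecidableEq Γ] {B : Finset Γ} (hB : B.Nonempty)
    (hfin : (tst G B).FiniteIndex) (U₁ : Submodule ℚ (ℚ ⊗[ℤ] Γ)) [FiniteDimensional ℚ U₁]
    {ℓ c : ℝ} (hc : 0 < c) (hℓ : ∀ g : G, ent (g • B) (hU U₁) ≤ ℓ) :
    ∃ H : AddSubgroup Γ, H.FG ∧ (∀ g : G, ∀ x ∈ H, g • x ∈ H) ∧
      (∀ x ∈ H, x ∈ AddSubgroup.closure {y | ∃ g : G, ∃ b ∈ B, ∃ b' ∈ B, y = g • (b - b')}) ∧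
      ∃ g : G, ∃ B' ⊆ g • B, B'.Nonempty ∧ (∀ b ∈ B', ∀ b' ∈ B', b - b' ∈ H) ∧
        Real.log B.card - Real.log B'.card + c * Module.finrank ℤ H ≤
          ℓ + c * Module.finrank ℚ U₁ := by
  classical
  obtain ⟨U₀, hU₀, hinv, g₀, hg₀⟩ := subspace_core hB hfin U₁ hc hℓ
  have := hfin
  have : Finite (G ⧸ tst G B) := inferInstance
  have : Fintype (G ⧸ tst G B) := Fintype.ofFinite _
  -- the finitely generated invariant subgroup
  set Y : Set Γ := {y | ∃ g : G, ∃ b ∈ B, ∃ b' ∈ B, y = g • (b - b')} with hY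
  have hYfin : Y.Finite := by
    refine (Finset.finite_toSet (Finset.univ.biUnion fun i : G ⧸ tst G B =>
      (i.out • B) - (i.out • B))).subset ?_
    rintro y ⟨g, b, hb, b', hb', rfl⟩
    rw [Finset.mem_coe, Finset.mem_biUnion]
    exact ⟨_, Finset.mem_univ _, orbit_diff g hb hb'⟩
  set L : AddSubgroup Γ := AddSubgroup.closure Y with hL
  have hLfg : L.FG := ⟨hYfin.toFinset, by rw [hYfin.coe_toFinset]⟩
  have hLinv : ∀ g : G, ∀ x ∈ L, g • x ∈ L := by
    intro g x hx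
    have h1 : L ≤ L.comap (aeq (Γ := Γ) g).toAddMonoidHom := by
      rw [hL, AddSubgroup.closure_le]
      rintro y ⟨g', b, hb, b', hb', rfl⟩
      refine AddSubgroup.subset_closure ⟨g * g', b, hb, b', hb', ?_⟩
      rw [mul_smul]
      rfl
    exact h1 hx
  have hUinv : ∀ g : G, ∀ x ∈ hU U₀, g • x ∈ hU U₀ := by
    intro g x hx
    rw [← hinv g, hU_map]
    exact ⟨x, hx, rfl⟩
  have hfg : (hU U₀ ⊓ L).FG := by
    have h1 : (AddSubgroup.toIntSubmodule L).FG := by
      rw [Submodule.fg_iff_addSubgroup_fg]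
      exact hLfg
    have h2 : IsNoetherian ℤ (AddSubgroup.toIntSubmodule L) :=
      isNoetherian_of_fg_of_noetherian _ h1
    have h3 := isNoetherian_submodule.1 h2 (AddSubgroup.toIntSubmodule (hU U₀ ⊓ L))
      (fun x hx => hx.2)
    rw [Submodule.fg_iff_addSubgroup_fg] at h3
    exact h3
  refine ⟨hU U₀ ⊓ L, hfg, fun g x hx => ⟨hUinv g x hx.1, hLinv g x hx.2⟩, fun x hx => hx.2,
    g₀, ?_⟩
  have hne : (g₀ • B).Nonempty := hB.smul_finset
  obtain ⟨a₀, ha₀, hbig⟩ := exists_big hne (hU U₀)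
  refine ⟨(g₀ • B).filter fun b => a₀ - b ∈ hU U₀, Finset.filter_subset _ _, ?_, ?_, ?_⟩
  · exact ⟨a₀, Finset.mem_filter.2 ⟨ha₀, by rw [sub_self]; exact AddSubgroup.zero_mem _⟩⟩
  · intro b hb b' hb'
    rw [Finset.mem_filter] at hb hb'
    refine ⟨?_, ?_⟩
    · have : b - b' = (a₀ - b') - (a₀ - b) := by abel
      rw [this]
      exact AddSubgroup.sub_mem _ hb'.2 hb.2
    · obtain ⟨x, hx, rfl⟩ := Finset.mem_smul_finset.1 hb.1
      obtain ⟨x', hx', rfl⟩ := Finset.mem_smul_finset.1 hb'.1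
      rw [← smul_sub]
      exact AddSubgroup.subset_closure ⟨g₀, x, hx, x', hx', rfl⟩
  · have h1 : (Module.finrank ℤ ↥(hU U₀ ⊓ L) : ℝ) ≤ Module.finrank ℚ U₀ := by
      exact_mod_cast finrank_le U₀ _ inf_le_left
    have h2 : (0 : ℝ) < (g₀ • B).card := by exact_mod_cast hne.card_pos
    have h3 : Real.log B.card - ent (g₀ • B) (hU U₀) ≤
        Real.log ((g₀ • B).filter fun b => a₀ - b ∈ hU U₀).card := by
      have h4 : (0 : ℝ) < (g₀ • B).card * Real.exp (-ent (g₀ • B) (hU U₀)) := by positivity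
      have h5 := Real.log_le_log h4 hbig
      rw [Real.log_mul h2.ne' (Real.exp_pos _).ne', Real.log_exp,
        Finset.card_smul_finset] at h5
      unfold cell at h5
      linarith
    have h6 := mul_le_mul_of_nonneg_left h1 hc.le
    linarith

end Pool.Agent.V5helper53.EQ
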