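import Mathlib
import Pool.Agent.V5helper53.EQ.Rank
import Pool.Agent.V5helper1.SR.Final
import Pool.Agent.TH404.Tor.Final

/-!
The main theorems.
-/

set_option autoImplicit false

open Finset
open scoped Pointwise TensorProduct

namespace Pool.Agent.V5helper53.EQ

section
open Classical

variable {Γ : Type*} [AddCommGroup Γ] {G : Type*} [Group G] [DistribMulAction G Γ]

/-- the main theorem with the entropy bound -/
theorem main_ent' {A : Finset Γ} (hA : A.Nonempty) {K ε : ℝ}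
    (hK : ∀ g : G, ((A + g • A).card : ℝ) ≤ K * A.card) (hε0 : 0 < ε) (hε1 : ε ≤ 1) :
    ∃ H : AddSubgroup Γ, H.FG ∧ (∀ g : G, ∀ x ∈ H, g • x ∈ H) ∧
      (∀ x ∈ H, x ∈ AddSubgroup.closure {y | ∃ g : G, ∃ a ∈ A, ∃ a' ∈ A, y = g • (a - a')}) ∧
      (Module.finrank ℤ H : ℝ) ≤ (1 + ε) * Real.logb 2 K ∧
      ent A H ≤ 39000 / ε ^ 3 * Real.log K := by
  have hAc : (0 : ℝ) < A.card := by exact_mod_cast hA.card_pos
  have hKA : ((A + A).card : ℝ) ≤ K * A.card := by simpa using hK 1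
  have hK1 : 1 ≤ K := by
    have h1 : (A.card : ℝ) ≤ (A + A).card := by
      exact_mod_cast Finset.card_le_card_add_right hA
    nlinarith
  have hK0 : (0 : ℝ) < K := by linarith
  have hlK : 0 ≤ Real.log K := Real.log_nonneg hK1
  set δ : ℝ := ε / 2 with hδ
  have hδ0 : 0 < δ := by positivity
  have hδ1 : δ ≤ 1 := by linarith
  obtain ⟨S, T, hS, hTA, hT, hcov⟩ := V5helper1.SR.upper hA hKA hδ0 hδ1
  set U₁ : Submodule ℚ (ℚ ⊗[ℤ] Γ) := Submodule.span ℚ (S.image (jm Γ) : Finset (ℚ ⊗[ℤ] Γ))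
    with hU₁
  have hfd : FiniteDimensional ℚ U₁ := FiniteDimensional.span_finset ℚ _
  have hrk : (Module.finrank ℚ U₁ : ℝ) ≤ (1 + δ) * Real.logb 2 K := by
    have h1 : Module.finrank ℚ U₁ ≤ S.card :=
      (finrank_span_finset_le_card _).trans Finset.card_image_le
    have h2 : (Module.finrank ℚ U₁ : ℝ) ≤ S.card := by exact_mod_cast h1
    linarith
  have hcl : AddSubgroup.closure (S : Set Γ) ≤ hU U₁ := by
    rw [AddSubgroup.closure_le]
    intro s hs
    exact Submodule.subset_span (Finset.mem_coe.2 (Finset.mem_image_of_mem _ hs))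
  have hcov1 : ∀ a ∈ A, ∃ t ∈ T, a - t ∈ hU U₁ := by
    intro a ha
    obtain ⟨t, ht, o, ⟨n, hn, ho⟩, h⟩ := hcov a ha
    refine ⟨t, ht, ?_⟩
    have h1 : o ∈ hU U₁ := by
      rw [mem_hU, jm_eq_zero.2 ⟨n, by exact_mod_cast hn, by rw [natCast_zsmul]; exact ho⟩]
      exact Submodule.zero_mem _
    have h2 := (hU U₁).add_mem (hcl h) h1
    rwa [sub_add_cancel] at h2
  set α : ℝ := 2400 / δ ^ 2 with hα
  have hα0 : 0 ≤ α := by positivity
  have hent1 : ent A (hU U₁) ≤ α * Real.log K := by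
    have h1 := ent_le_log hA hcov1 hT
    rwa [Real.log_rpow hK0] at h1
  obtain ⟨B, hBA, hBc, hfin⟩ := exists_finite_orbit (G := G) hA hK
  have hBc0 : (0 : ℝ) < B.card := by
    by_contra h
    push Not at h
    have : K * B.card ≤ 0 := mul_nonpos_of_nonneg_of_nonpos hK0.le h
    linarith
  have hBne : B.Nonempty := Finset.card_pos.1 (by exact_mod_cast hBc0)
  set ℓ : ℝ := (1 + α) * Real.log K with hℓ
  have hentB : ∀ g : G, ent (g • B) (hU U₁) ≤ ℓ := by
    intro g
    have h1 : ((g • A + A).card : ℝ) ≤ K * A.card := by rw [add_comm]; exact hK g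
    obtain ⟨T', -, hT', hcov'⟩ := cover_of_ent hA (hU U₁) h1 hK0.le
    have h2 : (T'.card : ℝ) ≤ K * Real.exp (α * Real.log K) :=
      hT'.trans (mul_le_mul_of_nonneg_left (Real.exp_le_exp.2 hent1) hK0.le)
    have h3 := ent_le_log (A := g • B) hBne.smul_finset (T := T')
      (fun a ha => hcov' a (Finset.smul_finset_subset_smul_finset hBA ha)) h2
    rw [Real.log_mul hK0.ne' (Real.exp_pos _).ne', Real.log_exp] at h3
    linarith
  set c : ℝ := (1 + α) * Real.log 2 / δ with hc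
  have hl2 : 0 < Real.log 2 := Real.log_pos (by norm_num)
  have hc0 : 0 < c := by positivity
  have hcl2 : c * Real.logb 2 K = ℓ / δ := by
    rw [hc, hℓ, Real.logb]
    field_simp
  obtain ⟨H, hHfg, hHinv, hHL, g₀, B', hB'B, hB'ne, hB'H, hmain⟩ :=
    rank_core hBne hfin U₁ hc0 hentB
  have hB'c : (0 : ℝ) < B'.card := by exact_mod_cast hB'ne.card_pos
  have hB'le : Real.log B'.card ≤ Real.log B.card := by
    refine Real.log_le_log hB'c ?_
    have := Finset.card_le_card hB'B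
    rw [Finset.card_smul_finset] at this
    exact_mod_cast this
  have hmain2 : c * Module.finrank ℚ U₁ ≤ (1 + δ) * (ℓ / δ) := by
    calc c * Module.finrank ℚ U₁ ≤ c * ((1 + δ) * Real.logb 2 K) :=
          mul_le_mul_of_nonneg_left hrk hc0.le
      _ = (1 + δ) * (c * Real.logb 2 K) := by ring
      _ = _ := by rw [hcl2]
  refine ⟨H, hHfg, hHinv, ?_, ?_, ?_⟩
  · intro x hx
    refine AddSubgroup.closure_mono ?_ (hHL x hx)
    rintro y ⟨g, b, hb, b', hb', rfl⟩
    exact ⟨g, b, hBA hb, b', hBA hb', rfl⟩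
  · have h1 : c * Module.finrank ℤ H ≤ c * ((1 + ε) * Real.logb 2 K) := by
      have h2 : c * ((1 + ε) * Real.logb 2 K) = (1 + 2 * δ) * (ℓ / δ) := by
        rw [← hcl2, hδ]; ring
      rw [h2]
      have h3 : ℓ + (1 + δ) * (ℓ / δ) = (1 + 2 * δ) * (ℓ / δ) := by
        field_simp
        ring
      linarith
    exact le_of_mul_le_mul_left h1 hc0
  · -- the entropy
    have hf0 : 0 ≤ c * (Module.finrank ℤ H : ℝ) := by positivity
    have h1 : Real.log B.card - Real.log B'.card ≤ ℓ + (1 + δ) * (ℓ / δ) := by linarith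
    have h2 : Real.log A.card ≤ Real.log K + Real.log B.card := by
      rw [← Real.log_mul hK0.ne' hBc0.ne']
      exact Real.log_le_log hAc hBc
    set e : ℝ := Real.log K + (ℓ + (1 + δ) * (ℓ / δ)) with he
    have h3 : Real.log A.card - Real.log B'.card ≤ e := by linarith
    have h4 : ((g₀ • A).card : ℝ) ≤ Real.exp e * B'.card := by
      rw [Finset.card_smul_finset]
      calc (A.card : ℝ) = Real.exp (Real.log A.card) := (Real.exp_log hAc).symm
        _ ≤ Real.exp (e + Real.log B'.card) := Real.exp_le_exp.2 (by linarith)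
        _ = Real.exp e * B'.card := by rw [Real.exp_add, Real.exp_log hB'c]
    obtain ⟨T₀, -, hT₀, hcov₀⟩ := cover_of_part (A := g₀ • A) (A' := A) (B := B') (H := H)
      hB'ne (hB'B.trans (Finset.smul_finset_subset_smul_finset hBA)) hB'H
      (K := K) (L := Real.exp e) (by rw [Finset.card_smul_finset]; exact hK g₀) h4 hK0.le
    have h5 := ent_le_log hA hcov₀ hT₀
    rw [Real.log_mul hK0.ne' (Real.exp_pos _).ne', Real.log_exp] at h5
    refine h5.trans ?_
    have h6 : Real.log K + e = (2 + (1 + α) * (2 + 1 / δ)) * Real.log K := by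
      rw [he, hℓ]
      field_simp
      ring
    rw [h6]
    refine mul_le_mul_of_nonneg_right ?_ hlK
    rw [hα, hδ]
    have hx : 1 ≤ 1 / ε := by rw [le_div_iff₀ hε0]; linarith
    set x : ℝ := 1 / ε with hxd
    have e1 : 2400 / (ε / 2) ^ 2 = 9600 * x ^ 2 := by rw [hxd]; field_simp; ring
    have e2 : 1 / (ε / 2) = 2 * x := by rw [hxd]; field_simp
    have e3 : 39000 / ε ^ 3 = 39000 * x ^ 3 := by rw [hxd]; field_simp
    rw [e1, e2, e3]
    have hx2 : 1 ≤ x ^ 2 := one_le_pow₀ hx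
    have hx3 : x ^ 2 ≤ x ^ 3 := pow_le_pow_right₀ hx (by norm_num)
    have hx4 : x ≤ x ^ 3 := by
      calc x = x ^ 1 := (pow_one x).symm
        _ ≤ x ^ 3 := pow_le_pow_right₀ hx (by norm_num)
    nlinarith

end

variable {Γ : Type*} [AddCommGroup Γ] {G : Type*} [Group G] [DistribMulAction G Γ]

/-- the main theorem with the entropy bound -/
theorem main_ent [d : DecidableEq Γ] {A : Finset Γ} (hA : A.Nonempty) {K ε : ℝ}
    (hK : ∀ g : G, ((A + g • A).card : ℝ) ≤ K * A.card) (hε0 : 0 < ε) (hε1 : ε ≤ 1) :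
    ∃ H : AddSubgroup Γ, H.FG ∧ (∀ g : G, ∀ x ∈ H, g • x ∈ H) ∧
      (∀ x ∈ H, x ∈ AddSubgroup.closure {y | ∃ g : G, ∃ a ∈ A, ∃ a' ∈ A, y = g • (a - a')}) ∧
      (Module.finrank ℤ H : ℝ) ≤ (1 + ε) * Real.logb 2 K ∧
      ent A H ≤ 39000 / ε ^ 3 * Real.log K := by
  have hd : d = (fun a b => Classical.propDecidable (a = b)) := Subsingleton.elim _ _
  subst hd
  exact main_ent' hA hK hε0 hε1

end Pool.Agent.V5helper53.EQ
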