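import Mathlib
import Pool.Agent.V5helper53.EQ.Main

/-!
Consequences of the main theorem.
-/

set_option autoImplicit false

open Finset
open scoped Pointwise TensorProduct

namespace Pool.Agent.V5helper53.EQ

variable {Γ : Type*} [AddCommGroup Γ] {G : Type*} [Group G] [DistribMulAction G Γ]

/-- the covering of all the sets that have a small sum with `A` -/
theorem cover_all [DecidableEq Γ] {A : Finset Γ} (hA : A.Nonempty) {K E : ℝ} (hK : 0 < K) {H : AddSubgroup Γ}
    (hE : ent A H ≤ E * Real.log K) (A' : Finset Γ) (K' : ℝ)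
    (hK' : ((A' + A).card : ℝ) ≤ K' * A.card) :
    ∃ T : Finset Γ, T ⊆ A' ∧ (T.card : ℝ) ≤ K' * K ^ E ∧ ∀ a ∈ A', ∃ t ∈ T, a - t ∈ H := by
  have hAc : (0 : ℝ) < A.card := by exact_mod_cast hA.card_pos
  have hK0 : 0 ≤ K' := by
    by_contra h
    push Not at h
    have h1 : K' * A.card < 0 := mul_neg_of_neg_of_pos h hAc
    have h2 : (0 : ℝ) ≤ (A' + A).card := Nat.cast_nonneg _
    linarith
  obtain ⟨T, hT, hTc, hcov⟩ := cover_of_ent hA H hK' hK0
  refine ⟨T, hT, hTc.trans (mul_le_mul_of_nonneg_left ?_ hK0), hcov⟩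
  rw [Real.rpow_def_of_pos hK, mul_comm]
  exact Real.exp_le_exp.2 hE

/-- the case in which the invariant subgroups of small rank are finite -/
theorem finite_case [DecidableEq Γ] {A : Finset Γ} (hA : A.Nonempty) {K ε : ℝ}
    (hK : ∀ g : G, ((A + g • A).card : ℝ) ≤ K * A.card) (hε0 : 0 < ε) (hε1 : ε ≤ 1)
    (m : ℕ) (hm : 0 < m) (htor : ∀ x : Γ, (∃ n : ℕ, n ≠ 0 ∧ n • x = 0) → m • x = 0)
    (hirr : ∀ H : AddSubgroup Γ, H.FG → (∀ g : G, ∀ x ∈ H, g • x ∈ H) →
      (Module.finrank ℤ H : ℝ) ≤ (1 + ε) * Real.logb 2 K → Finite H) :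
    ∃ (H : AddSubgroup Γ) (T : Finset Γ), Finite H ∧ Nat.card H ≤ A.card ∧ T ⊆ A ∧
      (T.card : ℝ) ≤ (2 * K) ^ (2000000000 * (Nat.log 2 m + 1) / ε ^ 3) ∧
      ∀ a ∈ A, ∃ t ∈ T, a - t ∈ H := by
  classical
  have hAc : (0 : ℝ) < A.card := by exact_mod_cast hA.card_pos
  have hKA : ((A + A).card : ℝ) ≤ K * A.card := by simpa using hK 1
  have hK1 : 1 ≤ K := by
    have h1 : (A.card : ℝ) ≤ (A + A).card := by
      exact_mod_cast Finset.card_le_card_add_right hA
    nlinarith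
  have hK0 : (0 : ℝ) < K := by linarith
  have hlK : 0 ≤ Real.log K := Real.log_nonneg hK1
  obtain ⟨H, hfg, hinv, -, hrk, hent⟩ := main_ent hA hK hε0 hε1
  have hfin : Finite H := hirr H hfg hinv hrk
  set E : ℝ := 39000 / ε ^ 3 with hE
  have hE0 : 0 ≤ E := by positivity
  obtain ⟨a₀, ha₀, hbig⟩ := exists_big hA H
  -- the big part, moved into `H`
  set B₀ : Finset Γ := A.filter fun b => a₀ - b ∈ H with hB₀
  have hB₀c : (A.card : ℝ) ≤ K ^ E * B₀.card := by
    have h1 : (A.card : ℝ) * Real.exp (-ent A H) ≤ B₀.card := hbig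
    have h2 : Real.exp (ent A H) ≤ K ^ E := by
      rw [Real.rpow_def_of_pos hK0, mul_comm]
      exact Real.exp_le_exp.2 hent
    calc (A.card : ℝ) = Real.exp (ent A H) * (A.card * Real.exp (-ent A H)) := by
          rw [Real.exp_neg]; field_simp
      _ ≤ Real.exp (ent A H) * B₀.card := mul_le_mul_of_nonneg_left h1 (Real.exp_pos _).le
      _ ≤ K ^ E * B₀.card := mul_le_mul_of_nonneg_right h2 (Nat.cast_nonneg _)
  have ha₀B : a₀ ∈ B₀ := Finset.mem_filter.2 ⟨ha₀, by rw [sub_self]; exact H.zero_mem⟩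
  have hB₀A : B₀ ⊆ A := Finset.filter_subset _ _
  have hft : Fintype H := Fintype.ofFinite H
  set B : Finset H := Finset.univ.filter (fun x : H => a₀ - (x : Γ) ∈ B₀) with hB
  have hinj : Function.Injective (fun x : H => a₀ - (x : Γ)) := fun x y h =>
    Subtype.ext (sub_right_injective h)
  have hBim : B.image (fun x : H => a₀ - (x : Γ)) = B₀ := by
    ext y
    rw [Finset.mem_image]
    constructor
    · rintro ⟨x, hx, rfl⟩
      exact (Finset.mem_filter.1 hx).2
    · intro hy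
      refine ⟨⟨a₀ - y, (Finset.mem_filter.1 hy).2⟩, Finset.mem_filter.2 ⟨Finset.mem_univ _, ?_⟩, ?_⟩
      · simpa using hy
      · simp
  have hBc : B.card = B₀.card := by
    rw [← hBim, Finset.card_image_of_injective _ hinj]
  have hBne : B.Nonempty := by
    rw [← Finset.card_pos, hBc]
    exact Finset.card_pos.2 ⟨a₀, ha₀B⟩
  have hBB : (B + B).card ≤ (A + A).card := by
    refine Finset.card_le_card_of_injOn (fun x : H => a₀ + a₀ - (x : Γ)) ?_ ?_
    · intro x hx
      obtain ⟨y, hy, z, hz, rfl⟩ := Finset.mem_add.1 hx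
      have h1 := hB₀A (Finset.mem_filter.1 hy).2
      have h2 := hB₀A (Finset.mem_filter.1 hz).2
      have h3 : a₀ + a₀ - ((y + z : H) : Γ) = (a₀ - (y : Γ)) + (a₀ - (z : Γ)) := by
        push_cast; abel
      change a₀ + a₀ - ((y + z : H) : Γ) ∈ (A + A : Finset Γ)
      rw [h3]
      exact Finset.add_mem_add h1 h2
    · intro x _ y _ h
      exact Subtype.ext (sub_right_injective h)
  have hKE : (0 : ℝ) < K ^ E := Real.rpow_pos_of_pos hK0 E
  have hBK : ((B + B).card : ℝ) ≤ (K * K ^ E) * B.card := by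
    calc ((B + B).card : ℝ) ≤ (A + A).card := by exact_mod_cast hBB
      _ ≤ K * A.card := hKA
      _ ≤ K * (K ^ E * B₀.card) := mul_le_mul_of_nonneg_left hB₀c hK0.le
      _ = _ := by rw [hBc]; ring
  have htorH : ∀ x : H, m • x = 0 := by
    intro x
    refine Subtype.ext ?_
    have h1 : IsOfFinAddOrder x := isOfFinAddOrder_of_finite x
    obtain ⟨n, hn, hnx⟩ := isOfFinAddOrder_iff_nsmul_eq_zero.1 h1
    have h2 := htor (x : Γ) ⟨n, hn.ne', by
      have := congrArg (fun y : H => (y : Γ)) hnx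
      simpa using this⟩
    simpa using h2
  obtain ⟨H₁, T₁, hH₁, hH₁c, hT₁, hcov₁⟩ := Pool.Agent.TH404.Tor.upper m hm htorH _ B hBne hBK
  set M : ℕ := 41005 * (Nat.log 2 m + 1) with hM
  set H₂ : AddSubgroup Γ := H₁.map H.subtype with hH₂
  have hfin₂ : Finite H₂ := by
    have : (H₂ : Set Γ) = H.subtype '' (H₁ : Set H) := rfl
    have h1 : (H₂ : Set Γ).Finite := by
      rw [this]
      exact (Set.toFinite (H₁ : Set H)).image _
    exact h1
  have hcard₂ : Nat.card H₂ ≤ A.card := by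
    have h1 : Nat.card H₂ = Nat.card H₁ :=
      (Nat.card_congr (H₁.equivMapOfInjective H.subtype Subtype.val_injective).toEquiv).symm
    rw [h1]
    exact hH₁c.trans (by rw [hBc]; exact Finset.card_le_card hB₀A)
  have hcov₂ : ∀ a ∈ B₀, ∃ t ∈ T₁.image (fun x : H => a₀ - (x : Γ)), a - t ∈ H₂ := by
    intro a ha
    have hx : (⟨a₀ - a, (Finset.mem_filter.1 ha).2⟩ : H) ∈ B :=
      Finset.mem_filter.2 ⟨Finset.mem_univ _, by simpa using ha⟩
    obtain ⟨t, ht, h⟩ := hcov₁ _ hx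
    refine ⟨a₀ - (t : Γ), Finset.mem_image_of_mem _ ht, ?_⟩
    refine ⟨-(⟨a₀ - a, (Finset.mem_filter.1 ha).2⟩ - t), H₁.neg_mem h, ?_⟩
    simp only [map_neg, map_sub, AddSubgroup.subtype_apply]
    abel
  have hent₂ := ent_le_log (A := B₀) ⟨a₀, ha₀B⟩ hcov₂
    (le_trans (by exact_mod_cast Finset.card_image_le) hT₁)
  have hpos : (0 : ℝ) < (2 * (K * K ^ E)) ^ M := by positivity
  have hAB₀ : ((A + B₀).card : ℝ) ≤ K * K ^ E * B₀.card := by
    calc ((A + B₀).card : ℝ) ≤ (A + A).card := by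
          exact_mod_cast Finset.card_le_card (Finset.add_subset_add_left hB₀A)
      _ ≤ K * A.card := hKA
      _ ≤ K * (K ^ E * B₀.card) := mul_le_mul_of_nonneg_left hB₀c hK0.le
      _ = _ := by ring
  obtain ⟨T, hTA, hT, hcov⟩ := cover_of_ent (A := B₀) (A' := A) ⟨a₀, ha₀B⟩ H₂ hAB₀ (by positivity)
  refine ⟨H₂, T, hfin₂, hcard₂, hTA, ?_, hcov⟩
  have h1 : (T.card : ℝ) ≤ K * K ^ E * (2 * (K * K ^ E)) ^ M := by
    refine hT.trans (mul_le_mul_of_nonneg_left ?_ (by positivity))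
    calc Real.exp (ent B₀ H₂) ≤ Real.exp (Real.log ((2 * (K * K ^ E)) ^ M)) :=
          Real.exp_le_exp.2 hent₂
      _ = _ := Real.exp_log hpos
  refine h1.trans ?_
  have hK2 : (1 : ℝ) ≤ 2 * K := by linarith
  have h2 : K * K ^ E = K ^ (1 + E) := by rw [Real.rpow_add hK0, Real.rpow_one]
  have h3 : K ^ (1 + E) ≤ (2 * K) ^ (1 + E) :=
    Real.rpow_le_rpow hK0.le (by linarith) (by linarith)
  have h4 : 2 * K ^ (1 + E) ≤ (2 * K) ^ (1 + E) := by
    rw [Real.mul_rpow (by norm_num) hK0.le]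
    refine mul_le_mul_of_nonneg_right ?_ (by positivity)
    calc (2 : ℝ) = 2 ^ (1 : ℝ) := (Real.rpow_one 2).symm
      _ ≤ 2 ^ (1 + E) := Real.rpow_le_rpow_of_exponent_le (by norm_num) (by linarith)
  have h5 : (1 : ℝ) ≤ 1 / ε ^ 3 := by
    rw [le_div_iff₀ (by positivity)]
    have : ε ^ 3 ≤ 1 := pow_le_one₀ hε0.le hε1
    linarith
  have hL : (1 : ℝ) ≤ (Nat.log 2 m + 1 : ℕ) := by exact_mod_cast Nat.succ_le_succ (Nat.zero_le _)
  rw [h2]
  calc K ^ (1 + E) * (2 * K ^ (1 + E)) ^ M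
      ≤ (2 * K) ^ (1 + E) * ((2 * K) ^ (1 + E)) ^ M :=
        mul_le_mul h3 (pow_le_pow_left₀ (by positivity) h4 M) (by positivity) (by positivity)
    _ = (2 * K) ^ ((1 + E) * (1 + M)) := by
        rw [← Real.rpow_natCast, ← Real.rpow_mul (by positivity), ← Real.rpow_add (by positivity)]
        congr 1
        ring
    _ ≤ _ := by
        refine Real.rpow_le_rpow_of_exponent_le hK2 ?_
        have e1 : (1 : ℝ) + E ≤ 39001 * (1 / ε ^ 3) := by
          have : E = 39000 * (1 / ε ^ 3) := by rw [hE]; ring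
          rw [this]; linarith
        have e2 : (1 : ℝ) + M ≤ 41006 * ((Nat.log 2 m + 1 : ℕ) : ℝ) := by
          rw [hM]; push_cast; push_cast at hL; linarith
        calc (1 + E) * (1 + (M : ℝ)) ≤ (39001 * (1 / ε ^ 3)) *
              (41006 * ((Nat.log 2 m + 1 : ℕ) : ℝ)) :=
              mul_le_mul e1 e2 (by positivity) (by positivity)
          _ = 1599275006 * (((Nat.log 2 m + 1 : ℕ) : ℝ) * (1 / ε ^ 3)) := by ring
          _ ≤ 2000000000 * (((Nat.log 2 m + 1 : ℕ) : ℝ) * (1 / ε ^ 3)) := by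
              refine mul_le_mul_of_nonneg_right (by norm_num) (by positivity)
          _ = _ := by push_cast; ring

end Pool.Agent.V5helper53.EQ
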