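import Mathlib
import Pool.Agent.V5helper53.EQ.Main2

/-!
Sets in a power of a torsion-free group which are almost invariant under the signed permutations.
-/

set_option autoImplicit false

open Finset
open scoped Pointwise TensorProduct

namespace Pool.Agent.V5helper53.EQ

/-- the torsion-free irreducible case -/
theorem tf_case {Γ : Type*} [AddCommGroup Γ] {G : Type*} [Group G] [DistribMulAction G Γ]
    [DecidableEq Γ] {A : Finset Γ} (hA : A.Nonempty) {K ε : ℝ}
    (hK : ∀ g : G, ((A + g • A).card : ℝ) ≤ K * A.card) (hε0 : 0 < ε) (hε1 : ε ≤ 1)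
    (hirr : ∀ H : AddSubgroup Γ, H.FG → (∀ g : G, ∀ x ∈ H, g • x ∈ H) →
      (Module.finrank ℤ H : ℝ) ≤ (1 + ε) * Real.logb 2 K → H = ⊥) :
    (A.card : ℝ) ≤ K ^ (40000 / ε ^ 3) := by
  have hAc : (0 : ℝ) < A.card := by exact_mod_cast hA.card_pos
  have hKA : ((A + A).card : ℝ) ≤ K * A.card := by simpa using hK 1
  have hK1 : 1 ≤ K := by
    have h1 : (A.card : ℝ) ≤ (A + A).card := by
      exact_mod_cast Finset.card_le_card_add_right hA
    nlinarith
  have hK0 : (0 : ℝ) < K := by linarith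
  obtain ⟨H, hfg, hinv, -, hrk, hent⟩ := main_ent hA hK hε0 hε1
  obtain ⟨T, hT, hTc, hcov⟩ := cover_all hA hK0 hent A K hKA
  have hH := hirr H hfg hinv hrk
  have h1 : A ⊆ T := by
    intro a ha
    obtain ⟨t, ht, h⟩ := hcov a ha
    rw [hH, AddSubgroup.mem_bot, sub_eq_zero] at h
    rwa [h]
  have h2 : (A.card : ℝ) ≤ T.card := by exact_mod_cast Finset.card_le_card h1
  refine h2.trans (hTc.trans ?_)
  have h3 : K * K ^ (39000 / ε ^ 3) = K ^ (1 + 39000 / ε ^ 3) := by
    rw [Real.rpow_add hK0, Real.rpow_one]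
  rw [h3]
  refine Real.rpow_le_rpow_of_exponent_le hK1 ?_
  have h5 : (1 : ℝ) ≤ 1 / ε ^ 3 := by
    rw [le_div_iff₀ (by positivity)]
    have : ε ^ 3 ≤ 1 := pow_le_one₀ hε0.le hε1
    linarith
  have e1 : 39000 / ε ^ 3 = 39000 * (1 / ε ^ 3) := by ring
  have e2 : 40000 / ε ^ 3 = 40000 * (1 / ε ^ 3) := by ring
  rw [e1, e2]
  linarith

/-- the group of the signed permutations of the coordinates -/
def sgp (n : ℕ) (Λ : Type*) [AddCommGroup Λ] : Subgroup ((Fin n → Λ) ≃ₗ[ℤ] (Fin n → Λ)) where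
  carrier := {w | ∃ (s : Fin n → ℤˣ) (σ : Equiv.Perm (Fin n)), ∀ x i, w x i = s i • x (σ i)}
  mul_mem' := by
    rintro w w' ⟨s, σ, h⟩ ⟨s', σ', h'⟩
    refine ⟨fun i => s i * s' (σ i), σ.trans σ', fun x i => ?_⟩
    rw [LinearEquiv.mul_apply, h, h', mul_smul]
    rfl
  one_mem' := ⟨1, 1, fun x i => by simp⟩
  inv_mem' := by
    rintro w ⟨s, σ, h⟩
    refine ⟨fun i => (s (σ⁻¹ i))⁻¹, σ⁻¹, fun x i => ?_⟩
    have h1 : w (w⁻¹ x) = x := by
      rw [← LinearEquiv.mul_apply, mul_inv_cancel]; rfl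
    have h2 := h (w⁻¹ x) (σ⁻¹ i)
    rw [h1] at h2
    rw [h2, inv_smul_smul]
    simp

/-- sign changes are signed permutations -/
def sgm (n : ℕ) (Λ : Type*) [AddCommGroup Λ] (s : Fin n → ℤˣ) (σ : Equiv.Perm (Fin n)) :
    sgp n Λ :=
  ⟨{ toFun := fun x i => s i • x (σ i)
     map_add' := fun x y => by ext i; simp
     map_smul' := fun c x => by
      ext i
      simp only [Pi.smul_apply, RingHom.id_apply]
      rw [smul_comm]
     invFun := fun x i => (s (σ⁻¹ i))⁻¹ • x (σ⁻¹ i)
     left_inv := fun x => by ext i; simp [smul_smul]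
     right_inv := fun x => by ext i; simp [smul_smul] },
    ⟨s, σ, fun x i => rfl⟩⟩

theorem sgm_apply {n : ℕ} {Λ : Type*} [AddCommGroup Λ] (s : Fin n → ℤˣ) (σ : Equiv.Perm (Fin n))
    (x : Fin n → Λ) (i : Fin n) : (sgm n Λ s σ • x) i = s i • x (σ i) := rfl

theorem signed {n : ℕ} {Λ : Type*} [AddCommGroup Λ] [IsAddTorsionFree Λ]
    [DecidableEq (Fin n → Λ)] {A : Finset (Fin n → Λ)} (hA : A.Nonempty) {K ε : ℝ}
    (hK : ∀ (s : Fin n → ℤˣ) (σ : Equiv.Perm (Fin n)),
      ((A + A.image fun x i => (s i : ℤ) • x (σ i)).card : ℝ) ≤ K * A.card)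
    (hε0 : 0 < ε) (hε1 : ε ≤ 1) (hKn : (1 + ε) * Real.logb 2 K < n) :
    (A.card : ℝ) ≤ K ^ (40000 / ε ^ 3) := by
  have hKG : ∀ g : sgp n Λ, ((A + g • A).card : ℝ) ≤ K * A.card := by
    rintro ⟨g, s, σ, hg⟩
    have h1 : (⟨g, s, σ, hg⟩ : sgp n Λ) • A = A.image fun x i => (s i : ℤ) • x (σ i) := by
      ext y
      rw [Finset.mem_smul_finset, Finset.mem_image]
      constructor
      · rintro ⟨x, hx, rfl⟩
        exact ⟨x, hx, by ext i; exact (hg x i).symm⟩
      · rintro ⟨x, hx, rfl⟩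
        exact ⟨x, hx, by ext i; exact hg x i⟩
    rw [h1]
    exact hK s σ
  refine tf_case hA hKG hε0 hε1 fun H hfg hinv hrk => ?_
  by_contra hne
  obtain ⟨x, hx, hx0⟩ := (AddSubgroup.bot_or_exists_ne_zero H).resolve_left hne
  obtain ⟨i, hi⟩ : ∃ i, x i ≠ 0 := by
    by_contra h
    push Not at h
    exact hx0 (funext h)
  set z : Λ := x i with hz
  -- the vectors `2 z e_j`
  have hmem : ∀ j : Fin n, (fun k => if k = j then (2 : ℤ) • z else 0 : Fin n → Λ) ∈ H := by
    intro j
    have h1 := hinv (sgm n Λ 1 (Equiv.swap j i)) x hx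
    have h2 := hinv (sgm n Λ (Function.update 1 j (-1)) 1) _ h1
    have h3 := H.sub_mem h1 h2
    convert h3 using 1
    ext k
    rw [Pi.sub_apply, sgm_apply, sgm_apply, sgm_apply]
    by_cases h : k = j
    · subst h
      rw [if_pos rfl, Function.update_self, Equiv.Perm.one_apply, Pi.one_apply, one_smul,
        Equiv.swap_apply_left, Units.neg_smul, one_smul, two_smul, sub_neg_eq_add]
    · rw [if_neg h, Function.update_of_ne h, Equiv.Perm.one_apply, Pi.one_apply, one_smul,
        one_smul, sub_self]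
  set y : Fin n → H := fun j => ⟨_, hmem j⟩ with hy
  have hli : LinearIndependent ℤ y := by
    rw [Fintype.linearIndependent_iff]
    intro c hc j
    have h1 : (∑ l, c l • ((y l : H) : Fin n → Λ)) j = 0 := by
      have := congrArg (fun z : H => (z : Fin n → Λ) j) hc
      simpa using this
    rw [Finset.sum_apply, Finset.sum_eq_single j] at h1
    · rw [Pi.smul_apply, hy] at h1
      simp only [if_true] at h1
      rw [smul_smul] at h1
      rcases smul_eq_zero.1 h1 with h | h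
      · have h2 : c j = 0 := by
          rcases mul_eq_zero.1 h with h | h
          · exact h
          · norm_num at h
        exact h2
      · exact absurd h hi
    · intro l _ hl
      rw [Pi.smul_apply, hy]
      simp only [if_neg hl.symm, smul_zero]
    · intro h
      exact absurd (Finset.mem_univ _) h
  have hmf : Module.Finite ℤ H := by
    rw [Module.Finite.iff_addGroup_fg, AddGroup.fg_iff_addSubgroup_fg]
    exact hfg
  have h4 := hli.fintype_card_le_finrank
  rw [Fintype.card_fin] at h4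
  have h5 : (n : ℝ) ≤ Module.finrank ℤ H := by exact_mod_cast h4
  linarith

end Pool.Agent.V5helper53.EQ
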