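import Mathlib
import Pool.Agent.V5helper53.EQ.Main2

/-!
Sets in a power of a group which are almost invariant under the changes of signs.
-/

set_option autoImplicit false

open Finset
open scoped Pointwise TensorProduct

namespace Pool.Agent.V5helper53.EQ

theorem uncond {ι : Type*} [Fintype ι] {Λ : Type*} [AddCommGroup Λ] [DecidableEq (ι → Λ)]
    {A : Finset (ι → Λ)}
    (hA : A.Nonempty) {K ε : ℝ}
    (hK : ∀ s : ι → ℤˣ, ((A + A.image fun x i => (s i : ℤ) • x i).card : ℝ) ≤ K * A.card)
    (hε0 : 0 < ε) (hε1 : ε ≤ 1) :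
    ∃ I : Finset ι, (I.card : ℝ) ≤ (1 + ε) * Real.logb 2 K ∧
      ∀ (A' : Finset (ι → Λ)) (K' : ℝ), ((A' + A).card : ℝ) ≤ K' * A.card →
        ∃ T : Finset (ι → Λ), T ⊆ A' ∧ (T.card : ℝ) ≤ K' * K ^ (39000 / ε ^ 3) ∧
          ∀ a ∈ A', ∃ t ∈ T, ∀ i, i ∉ I → ∃ n : ℕ, n ≠ 0 ∧ n • (a i - t i) = 0 := by
  classical
  have hAc : (0 : ℝ) < A.card := by exact_mod_cast hA.card_pos
  have hKG : ∀ s : ι → ℤˣ, ((A + s • A).card : ℝ) ≤ K * A.card := by
    intro s
    have : s • A = A.image fun x i => (s i : ℤ) • x i := by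
      ext y
      rw [Finset.mem_smul_finset, Finset.mem_image]
      constructor
      · rintro ⟨x, hx, rfl⟩
        exact ⟨x, hx, by ext i; rfl⟩
      · rintro ⟨x, hx, rfl⟩
        exact ⟨x, hx, by ext i; rfl⟩
    rw [this]
    exact hK s
  have hKA : ((A + A).card : ℝ) ≤ K * A.card := by simpa using hKG 1
  have hK1 : 1 ≤ K := by
    have h1 : (A.card : ℝ) ≤ (A + A).card := by
      exact_mod_cast Finset.card_le_card_add_right hA
    nlinarith
  obtain ⟨H, hfg, hinv, -, hrk, hent⟩ := main_ent hA hKG hε0 hε1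
  set I : Finset ι := Finset.univ.filter fun i => ∃ x ∈ H, ∀ n : ℕ, n ≠ 0 → n • x i ≠ 0 with hI
  refine ⟨I, ?_, ?_⟩
  · refine le_trans ?_ hrk
    have hch : ∀ i : I, ∃ x ∈ H, ∀ n : ℕ, n ≠ 0 → n • x i.1 ≠ 0 := fun i =>
      (Finset.mem_filter.1 i.2).2
    choose x hxH hx using hch
    set y : I → H := fun i => ⟨x i - (Function.update 1 i.1 (-1) : ι → ℤˣ) • x i,
      H.sub_mem (hxH i) (hinv _ _ (hxH i))⟩ with hy
    have hy1 : ∀ i : I, ∀ j : ι, ((y i : H) : ι → Λ) j = if j = i.1 then (2 : ℤ) • x i j else 0 := by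
      intro i j
      change x i j - (Function.update (1 : ι → ℤˣ) i.1 (-1) j) • x i j = _
      by_cases h : j = i.1
      · subst h
        rw [Function.update_self, if_pos rfl, Units.smul_def]
        simp [two_smul]
      · rw [Function.update_of_ne h, if_neg h]
        simp
    have hli : LinearIndependent ℤ y := by
      rw [Fintype.linearIndependent_iff]
      intro c hc i
      have h1 : (∑ j, c j • ((y j : H) : ι → Λ)) i.1 = 0 := by
        have := congrArg (fun z : H => (z : ι → Λ) i.1) hc
        simpa using this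
      rw [Finset.sum_apply] at h1
      have h2 : ∑ j : I, (c j • ((y j : H) : ι → Λ)) i.1 = c i • (2 : ℤ) • x i i.1 := by
        rw [Finset.sum_eq_single i]
        · rw [Pi.smul_apply, hy1, if_pos rfl]
        · intro j _ hj
          rw [Pi.smul_apply, hy1, if_neg (fun h => hj (Subtype.ext h.symm)), smul_zero]
        · intro h
          exact absurd (Finset.mem_univ _) h
      rw [h2, smul_smul] at h1
      by_contra hc0
      have h3 : (c i * 2).natAbs ≠ 0 := by
        rw [Int.natAbs_ne_zero]
        exact mul_ne_zero hc0 (by norm_num)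
      refine hx i _ h3 ?_
      rcases Int.natAbs_eq (c i * 2) with h | h
      · rw [h, natCast_zsmul] at h1
        exact h1
      · rw [h, neg_smul, natCast_zsmul, neg_eq_zero] at h1
        exact h1
    have hmf : Module.Finite ℤ H := by
      rw [Module.Finite.iff_addGroup_fg, AddGroup.fg_iff_addSubgroup_fg]
      exact hfg
    have h4 := hli.fintype_card_le_finrank
    rw [Fintype.card_coe] at h4
    exact_mod_cast h4
  · intro A' K' hK'
    obtain ⟨T, hT, hTc, hcov⟩ := cover_all hA (by linarith) hent A' K' hK'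
    refine ⟨T, hT, hTc, fun a ha => ?_⟩
    obtain ⟨t, ht, h⟩ := hcov a ha
    refine ⟨t, ht, fun i hi => ?_⟩
    by_contra hcon
    push Not at hcon
    exact hi (Finset.mem_filter.2 ⟨Finset.mem_univ _, a - t, h, fun n hn => hcon n hn⟩)

/-- the number `log₂ K` of coordinates is optimal -/
theorem uncond_sharp (n N : ℕ) : ∃ A : Finset (Fin n → ℤ), A.Nonempty ∧
    (A + A).card ≤ 2 ^ n * A.card ∧
    (∀ s : Fin n → ℤˣ, (A.image fun x i => (s i : ℤ) • x i) = A) ∧
    (∀ σ : Equiv.Perm (Fin n), (A.image fun x i => x (σ i)) = A) ∧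
    ∀ (I : Finset (Fin n)) (T : Finset (Fin n → ℤ)), I.card < n →
      (∀ a ∈ A, ∃ t ∈ T, ∀ i, i ∉ I → a i = t i) → N ≤ T.card := by
  set A : Finset (Fin n → ℤ) := Fintype.piFinset fun _ => Finset.Icc (-(N : ℤ)) N with hA
  have hmem : ∀ x : Fin n → ℤ, x ∈ A ↔ ∀ i, -(N : ℤ) ≤ x i ∧ x i ≤ N := by
    intro x
    rw [hA, Fintype.mem_piFinset]
    simp only [Finset.mem_Icc]
  have hcard : A.card = (2 * N + 1) ^ n := by
    rw [hA, Fintype.card_piFinset, Finset.prod_const, Finset.card_univ, Fintype.card_fin,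
      Int.card_Icc]
    congr 1
    omega
  have h0 : (0 : Fin n → ℤ) ∈ A := (hmem 0).2 fun i => by simp
  refine ⟨A, ⟨0, h0⟩, ?_, ?_, ?_, ?_⟩
  · have h1 : A + A ⊆ Fintype.piFinset fun _ => Finset.Icc (-(2 * N : ℤ)) (2 * N) := by
      intro z hz
      obtain ⟨x, hx, y, hy, rfl⟩ := Finset.mem_add.1 hz
      rw [Fintype.mem_piFinset]
      intro i
      have h2 := (hmem x).1 hx i
      have h3 := (hmem y).1 hy i
      rw [Finset.mem_Icc, Pi.add_apply]
      constructor <;> linarith
    refine (Finset.card_le_card h1).trans ?_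
    rw [Fintype.card_piFinset, Finset.prod_const, Finset.card_univ, Fintype.card_fin,
      Int.card_Icc, hcard, ← mul_pow]
    refine Nat.pow_le_pow_left ?_ n
    omega
  · intro s
    ext y
    rw [Finset.mem_image]
    constructor
    · rintro ⟨x, hx, rfl⟩
      rw [hmem] at hx ⊢
      intro i
      have h2 := hx i
      rcases Int.units_eq_one_or (s i) with h | h
      · rw [h]; simpa using h2
      · rw [h]
        simp only [Units.val_neg, Units.val_one, neg_smul, one_smul]
        constructor <;> linarith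
    · intro hy
      refine ⟨fun i => (s i : ℤ) • y i, ?_, ?_⟩
      · rw [hmem] at hy ⊢
        intro i
        have h2 := hy i
        rcases Int.units_eq_one_or (s i) with h | h
        · rw [h]; simpa using h2
        · rw [h]
          simp only [Units.val_neg, Units.val_one, neg_smul, one_smul]
          constructor <;> linarith
      · ext i
        rcases Int.units_eq_one_or (s i) with h | h <;> simp [h]
  · intro σ
    ext y
    rw [Finset.mem_image]
    constructor
    · rintro ⟨x, hx, rfl⟩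
      rw [hmem] at hx ⊢
      exact fun i => hx _
    · intro hy
      refine ⟨fun i => y (σ⁻¹ i), ?_, ?_⟩
      · rw [hmem] at hy ⊢
        exact fun i => hy _
      · ext i
        simp
  · intro I T hI hcov
    obtain ⟨i₀, hi₀⟩ : ∃ i, i ∉ I := by
      by_contra h
      push Not at h
      have : I = Finset.univ := Finset.eq_univ_iff_forall.2 h
      rw [this, Finset.card_univ, Fintype.card_fin] at hI
      exact lt_irrefl _ hI
    have h1 : (Finset.Icc (-(N : ℤ)) N) ⊆ T.image fun t => t i₀ := by
      intro k hk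
      obtain ⟨t, ht, h⟩ := hcov (fun _ => k) ((hmem _).2 fun i => Finset.mem_Icc.1 hk)
      exact Finset.mem_image.2 ⟨t, ht, (h i₀ hi₀).symm⟩
    have h2 := (Finset.card_le_card h1).trans Finset.card_image_le
    rw [Int.card_Icc] at h2
    omega

end Pool.Agent.V5helper53.EQ
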